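import Pool.Agent.H48.KV.Rdx

/-!
# AQ (MP_b39724_nt): a weak form of the reciprocity data, for every number field

`RN L`: a finite set `S0` of primes of `L` which contains the primes above 2, generators `pi v` up to `S0`-units and classes `q v` such that a product of
`pi v` of total class `0` is a square locally at `S0`. No root of unity and no reciprocity law is needed.
-/

set_option autoImplicit false

open scoped NumberField
open IsDedekindDomain H63.MA

noncomputable section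

namespace H48.AQ

open H38.BB

/-- weak form of the reciprocity data for `p = 2` -/
structure RN (L : Type) [Field L] [NumberField L] where
  S0 : Finset (Pl L)
  above : ∀ v, Above 2 v → v ∈ S0
  pi : Pl L → Lˣ
  pi_self : ∀ v, v ∉ S0 → ord v (pi v) = 1
  pi_ne : ∀ v w, v ∉ S0 → w ∉ S0 → w ≠ v → ord w (pi v) = 0
  r : ℕ
  q : Pl L → Fin r → ZMod 2
  prim_of : ∀ m : Pl L →₀ ℤ, (∀ v ∈ S0, m v = 0) → (m.sum fun v n => (n : ZMod 2) • q v) = 0 →
    PS 2 (-1 : L) S0 (m.prod fun v n => pi v ^ n)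

variable {K : Type} [Field K] [NumberField K] {p : ℕ}

theorem rn_mul (hp : p.Prime) {ζ : K} (hζ : IsPrimitiveRoot ζ p)
    {S0 : Finset (Pl K)} {x y : Kˣ} (hx : PS p ζ S0 x) (hy : PS p ζ S0 y) :
    PS p ζ S0 (x * y) := by
  refine ⟨(linP K hp).mul_mem (lin_mem.2 hx.1) (lin_mem.2 hy.1), fun v hv ha z => ?_⟩
  rw [B_mul_left hp hζ ha, hx.2 v hv ha z, hy.2 v hv ha z, add_zero]

theorem rn_inv (hp : p.Prime) {ζ : K} (hζ : IsPrimitiveRoot ζ p)
    {S0 : Finset (Pl K)} {x : Kˣ} (hx : PS p ζ S0 x) : PS p ζ S0 x⁻¹ := by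
  refine ⟨(linP K hp).inv_mem (lin_mem.2 hx.1), fun v hv ha z => ?_⟩
  rw [B_inv_left hp hζ ha, hx.2 v hv ha z, neg_zero]

theorem rn_pow (hp : p.Prime) {ζ : K} (hζ : IsPrimitiveRoot ζ p)
    (S0 : Finset (Pl K)) (y : Kˣ) : PS p ζ S0 (y ^ p) := by
  refine ⟨fun v _ => lin_loc_one hp v y, fun v hv ha z => ?_⟩
  have h1 := B_zpow_left hp hζ ha y z (p : ℤ)
  rw [zpow_natCast] at h1
  rw [h1, Int.cast_natCast, ZMod.natCast_self, zero_mul]

/-- the subgroup `PS` -/
def rnG (hp : p.Prime) {ζ : K} (hζ : IsPrimitiveRoot ζ p)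
    (S0 : Finset (Pl K)) : Subgroup Kˣ where
  carrier := {x | PS p ζ S0 x}
  mul_mem' := fun hx hy => rn_mul hp hζ hx hy
  one_mem' := by
    have h1 := rn_pow hp hζ S0 (1 : Kˣ)
    rwa [one_pow] at h1
  inv_mem' := fun hx => rn_inv hp hζ hx

theorem rn_fin (hp : p.Prime) {ζ : K} (hζ : IsPrimitiveRoot ζ p)
    (S0 : Finset (Pl K)) (hS : ∀ v, Above p v → v ∈ S0) (n : ℕ) (hn1 : 1 ≤ n)
    (hn : ∀ v ∈ S0, WithZero.exp (-(n : ℤ)) < v.valuation K ((p : K) ^ 2)) :
    Finite (Kˣ ⧸ rnG hp hζ S0) := by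
  classical
  have hp0 : (0 : ℤ) < p := by exact_mod_cast hp.pos
  have hrep : ∀ q : Kˣ ⧸ rnG hp hζ S0, ∃ x : Kˣ,
      (QuotientGroup.mk x : Kˣ ⧸ rnG hp hζ S0) = q ∧
        ∀ v ∈ S0, 0 ≤ ord v x ∧ ord v x < p := by
    intro q
    obtain ⟨x, rfl⟩ := QuotientGroup.mk_surjective q
    choose π hπ using fun v : Pl K => exists_unif v
    obtain ⟨y, hy⟩ := weak_approx_one S0 (fun v => π v ^ (-(ord v x / p)))
    refine ⟨x * y ^ p, ?_, fun v hv => ?_⟩
    · rw [QuotientGroup.eq]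
      have h1 : (x * y ^ p)⁻¹ * x = (y ^ p)⁻¹ := by
        rw [mul_inv_rev, mul_assoc, inv_mul_cancel, mul_one]
      rw [h1]
      exact rn_inv hp hζ (rn_pow hp hζ S0 y)
    · have h1 := ord_of_one1 (hy v hv)
      rw [ord_mul, ord_inv, ord_zpow, hπ, mul_one] at h1
      have h2 : ord v y = -(ord v x / p) := by linarith
      rw [ord_mul, ord_pow, h2]
      have h3 := Int.emod_nonneg (ord v x) hp0.ne'
      have h4 := Int.emod_lt_of_pos (ord v x) hp0
      have h5 := Int.emod_add_mul_ediv (ord v x) p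
      constructor
      · linarith
      · linarith
  choose X hX1 hX2 using hrep
  have ha : ∀ (q : Kˣ ⧸ rnG hp hζ S0) (v : Pl K), ∃ a : 𝓞 K, v ∈ S0 →
      v.valuation K (algebraMap (𝓞 K) K a - (X q : K)) ≤ WithZero.exp (-((n + p : ℕ) : ℤ)) := by
    intro q v
    by_cases hv : v ∈ S0
    · obtain ⟨a, ha⟩ := RMkA_loc v (n + p) (X q : K) ((ord_nonneg_iff v (X q)).1 (hX2 q v hv).1)
      exact ⟨a, fun _ => ha⟩
    · exact ⟨0, fun h => absurd h hv⟩
  choose a ha using ha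
  have hfin : ∀ v : S0, Finite (𝓞 K ⧸ v.1.asIdeal ^ (n + p)) := fun v =>
    Ideal.finiteQuotientOfFreeOfNeBot _ (pow_ne_zero _ v.1.ne_bot)
  let code : (Kˣ ⧸ rnG hp hζ S0) → ∀ v : S0, 𝓞 K ⧸ v.1.asIdeal ^ (n + p) :=
    fun q v => Ideal.Quotient.mk _ (a q v)
  apply Finite.of_injective code
  intro q q' hqq
  rw [← hX1 q, ← hX1 q', QuotientGroup.eq]
  apply RMkA_near hp hζ S0 hS n hn1 hn
  intro v hv
  have h1 : a q v - a q' v ∈ v.asIdeal ^ (n + p) := by
    have h2 := congrFun hqq ⟨v, hv⟩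
    exact Ideal.Quotient.eq.1 h2
  have h2 : v.valuation K (algebraMap (𝓞 K) K (a q v) - algebraMap (𝓞 K) K (a q' v)) ≤
      WithZero.exp (-((n + p : ℕ) : ℤ)) := by
    rw [← map_sub, HeightOneSpectrum.valuation_of_algebraMap,
      HeightOneSpectrum.intValuation_le_pow_iff_mem]
    exact h1
  have h3 := ha q v hv
  have h4 := ha q' v hv
  have h5 : v.valuation K ((X q' : K) - X q) ≤ WithZero.exp (-((n + p : ℕ) : ℤ)) := by
    have h6 : (X q' : K) - X q = (algebraMap (𝓞 K) K (a q v) - (X q : K)) -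
        ((algebraMap (𝓞 K) K (a q v) - algebraMap (𝓞 K) K (a q' v)) +
          (algebraMap (𝓞 K) K (a q' v) - (X q' : K))) := by ring
    rw [h6]
    refine (Valuation.map_sub _ _ _).trans (max_le h3 ((Valuation.map_add _ _ _).trans
      (max_le h2 h4)))
  have h7 : (((X q)⁻¹ * X q' : Kˣ) : K) - 1 = ((X q' : K) - X q) * (X q : K)⁻¹ := by
    rw [Units.val_mul, Units.val_inv_eq_inv_val, sub_mul, mul_inv_cancel₀ (X q).ne_zero]
    ring
  rw [h7, map_mul, map_inv₀, val_eq v (X q), ← WithZero.exp_neg, neg_neg]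
  calc v.valuation K ((X q' : K) - X q) * WithZero.exp (ord v (X q))
      ≤ WithZero.exp (-((n + p : ℕ) : ℤ)) * WithZero.exp (ord v (X q)) := by gcongr
    _ = WithZero.exp (-((n + p : ℕ) : ℤ) + ord v (X q)) := by rw [WithZero.exp_add]
    _ ≤ WithZero.exp (-(n : ℤ)) := by
        rw [WithZero.exp_le_exp]
        have h8 := (hX2 q v hv).2
        push_cast
        linarith

private theorem rn0 (K : Type) [Field K] [NumberField K] (S0 : Finset (Pl K)) (hcl : ClOne S0)
    (hS : ∀ v, Above 2 v → v ∈ S0) : ∃ D : RN K, D.S0 = S0 := by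
  classical
  have hp : Nat.Prime 2 := Nat.prime_two
  have hζ : IsPrimitiveRoot (-1 : K) 2 := IsPrimitiveRoot.neg_one 0 (by norm_num)
  have : Fact (Nat.Prime 2) := ⟨hp⟩
  have hpK : ((2 : ℕ) : K) ≠ 0 := by exact_mod_cast hp.ne_zero
  obtain ⟨n0, hn0⟩ := wa_small_finset S0 (fun _ => 1) (fun v => v.valuation K (((2 : ℕ) : K) ^ 2)) (by
    intro v _
    rw [Valuation.ne_zero_iff]
    exact pow_ne_zero 2 hpK)
  obtain ⟨n, hnn⟩ : ∃ n : ℕ, n = n0 + 1 := ⟨_, rfl⟩
  have hn1 : 1 ≤ n := by omega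
  have hn : ∀ v ∈ S0, WithZero.exp (-(n : ℤ)) < v.valuation K (((2 : ℕ) : K) ^ 2) := by
    intro v hv
    refine lt_of_le_of_lt ?_ (hn0 v hv)
    rw [mul_one, WithZero.exp_le_exp]
    omega
  have hfin := rn_fin hp hζ S0 hS n hn1 hn
  have hgex : ∀ v : Pl K, ∃ x : Kˣ, v ∉ S0 → ord v x = 1 ∧ ∀ w, w ∉ S0 → w ≠ v → ord w x = 0 := by
    intro v
    by_cases hv : v ∈ S0
    · exact ⟨1, fun h => absurd hv h⟩
    · obtain ⟨x, hx⟩ := hcl v hv
      exact ⟨x, fun _ => hx⟩
  choose g hg using hgex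
  have hgen : ∀ x : Kˣ, ∃ (m : Pl K →₀ ℤ) (w : Kˣ), w ∈ UT S0 ∧ (∀ i ∈ m.support, i ∉ S0) ∧
      x = (m.prod fun v n => g v ^ n) * w := by
    intro x
    obtain ⟨m, hm⟩ : ∃ m : Pl K →₀ ℤ, ∀ v, m v = if v ∈ S0 then 0 else ord v x := by
      refine ⟨Finsupp.ofSupportFinite (fun v => if v ∈ S0 then 0 else ord v x) ?_, fun v => rfl⟩
      refine (finite_ord x).subset ?_
      intro v hv
      rw [Function.mem_support] at hv
      intro h0
      apply hv
      split_ifs
      · rfl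
      · exact h0
    have hmS : ∀ i ∈ m.support, i ∉ S0 := by
      intro i hi his
      apply Finsupp.mem_support_iff.1 hi
      rw [hm, if_pos his]
    refine ⟨m, (m.prod fun v n => g v ^ n)⁻¹ * x, ?_, hmS, ?_⟩
    · intro v hv
      rw [ord_mul, ord_inv, Finsupp.prod, ord_prod]
      have h1 : ∑ i ∈ m.support, ord v (g i ^ m i) = ord v x := by
        rw [Finset.sum_eq_single v]
        · rw [ord_zpow, (hg v hv).1, mul_one, hm, if_neg hv]
        · intro i hi hiv
          rw [ord_zpow, (hg i (hmS i hi)).2 v hv (Ne.symm hiv), mul_zero]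
        · intro h
          rw [Finsupp.notMem_support_iff.1 h, zpow_zero, ord_one]
      rw [h1, neg_add_cancel]
    · rw [mul_inv_cancel_left]
  obtain ⟨u, r, q, hu, hA, hB, hnon⟩ := RMkA_lin hp (rnG hp hζ S0) (UT S0)
    (fun y => rn_pow hp hζ S0 y) hfin g (fun v => v ∉ S0) hgen
  refine ⟨{ S0 := S0
            above := hS
            pi := fun v => g v * u v
            pi_self := ?_
            pi_ne := ?_
            r := r
            q := fun v => if v ∈ S0 then 0 else q v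
            prim_of := ?_ }, rfl⟩
  · intro v hv
    rw [ord_mul, (hg v hv).1, hu v v hv, add_zero]
  · intro v w hv hw hwv
    rw [ord_mul, (hg v hv).2 w hw hwv, hu v w hw, add_zero]
  · intro m hm hsum
    apply hA m
    rw [← hsum]
    apply Finset.sum_congr rfl
    intro v hv
    have hvS : v ∉ S0 := fun h => (Finsupp.mem_support_iff.1 hv) (hm v h)
    simp only [if_neg hvS]

theorem rnx (K : Type) [Field K] [NumberField K] : ∃ T : Finset (Pl K), ClOne T ∧
      (∀ v, Above 2 v → v ∈ T) ∧ ∀ S1 : Finset (Pl K), (∀ v ∈ T, v ∈ S1) →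
        ∃ D : RN K, D.S0 = S1 := by
  classical
  obtain ⟨T1, hT1⟩ := exists_clone K
  have hcl : ClOne (T1 ∪ (finite_above (K := K) Nat.prime_two.ne_zero).toFinset) :=
    clone_mono hT1 Finset.subset_union_left
  have hab : ∀ v : Pl K, Above 2 v → v ∈ T1 ∪ (finite_above (K := K) Nat.prime_two.ne_zero).toFinset := by
    intro v hv
    rw [Finset.mem_union, Set.Finite.mem_toFinset]
    exact Or.inr hv
  refine ⟨T1 ∪ (finite_above (K := K) Nat.prime_two.ne_zero).toFinset, hcl, hab, ?_⟩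
  intro S1 hS1
  exact rn0 K S1 (clone_mono hcl (fun v hv => hS1 v hv)) (fun v hv => hS1 v (hab v hv))

/-- an element whose orders outside `S0` are even is an `S0`-unit times a square -/
theorem rn_unit (D : RN K) (x : Kˣ)
    (h : ∀ v, v ∉ D.S0 → ((2 : ℕ) : ℤ) ∣ ord v x) : ∃ u y : Kˣ, TUnit D.S0 u ∧ x = u * y ^ 2 := by
  classical
  have hfin := finite_ord x
  let F : Finset (Pl K) := hfin.toFinset.filter (fun v => v ∉ D.S0)
  let y : Kˣ := ∏ v ∈ F, D.pi v ^ (ord v x / ((2 : ℕ) : ℤ))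
  have hy : ∀ w, w ∉ D.S0 → ord w y = ord w x / ((2 : ℕ) : ℤ) := by
    intro w hw
    have h1 : ord w y = ∑ v ∈ F, (ord v x / ((2 : ℕ) : ℤ)) * ord w (D.pi v) := by
      rw [ord_prod]
      exact Finset.sum_congr rfl fun v _ => ord_zpow w (D.pi v) _
    rw [h1]
    by_cases hwF : w ∈ F
    · rw [Finset.sum_eq_single w]
      · rw [D.pi_self w hw, mul_one]
      · intro v hv hvw
        rw [D.pi_ne v w (Finset.mem_filter.1 hv).2 hw hvw.symm, mul_zero]
      · intro h2
        exact absurd hwF h2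
    · have h2 : ord w x = 0 := by
        by_contra h3
        exact hwF (Finset.mem_filter.2 ⟨hfin.mem_toFinset.2 h3, hw⟩)
      rw [h2, Int.zero_ediv]
      apply Finset.sum_eq_zero
      intro v hv
      have h3 : w ≠ v := by
        rintro rfl
        exact hwF hv
      rw [D.pi_ne v w (Finset.mem_filter.1 hv).2 hw h3, mul_zero]
  refine ⟨x * (y ^ 2)⁻¹, y, ?_, ?_⟩
  · intro w hw
    rw [ord_mul, ord_inv, ord_pow, hy w hw]
    obtain ⟨k, hk⟩ := h w hw
    have hp0 : ((2 : ℕ) : ℤ) ≠ 0 := by norm_num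
    rw [hk, Int.mul_ediv_cancel_left _ hp0]
    ring
  · rw [inv_mul_cancel_right]

end H48.AQ
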