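import Pool.Agent.H48.T3.LtA
import Pool.Agent.H48.AQ.Rn

/-!
# AQ: elements with trivial Kummer character on the decomposition groups over `S` (every number field `K`)
-/

set_option autoImplicit false

open scoped NumberField Classical
open IsDedekindDomain H38.ML H63.MA

noncomputable section

namespace H48.AQ

open H48.KV H48.T3

private theorem rn_ne {K : Type} [Field K] [NumberField K] {Ω : Type} [Field Ω] [Algebra K Ω]
    (Q : DP K Ω) (v : Pl K) : Q.P v ≠ ⊥ := by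
  intro h
  have h1 := Q.under v
  rw [h] at h1
  apply v.ne_bot
  rw [← h1]
  have hinj : Function.Injective (algebraMap (𝓞 K) (𝓞 Ω)) :=
    NumberField.RingOfIntegers.algebraMap.injective K Ω
  rw [Ideal.under, ← RingHom.ker_eq_comap_bot, (RingHom.injective_iff_ker_eq_bot _).mp hinj]

theorem rn_triv {K : Type} [Field K] [NumberField K] {Ω : Type} [Field Ω] [Algebra K Ω]
    [IsAlgClosure K Ω] (D : RN K)
    (Q : DP K Ω) (s : Kˣ) (hs : PS 2 (-1 : K) D.S0 s) (v : Pl K) (hv : v ∈ D.S0) (σ : Gal(Ω/K))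
    (hσ : σ ∈ dec (K := K) (Q.P v)) : kk 2 (-1 : K) s σ = 0 := by
  have hp : Nat.Prime 2 := Nat.prime_two
  have hζ : IsPrimitiveRoot (-1 : K) 2 := IsPrimitiveRoot.neg_one 0 (by norm_num)
  have key : ∃ y : Kˣ, v.valuation K (((s * (y ^ 2)⁻¹ : Kˣ) : K) - 1) <
      v.valuation K (((2 : ℕ) : K) ^ 2) := by
    by_cases ha : Above 2 v
    · exact hs.1 v ha
    · obtain ⟨y, hy⟩ := (spl_iff hp hζ ha s).1 (hs.2 v hv ha)
      refine ⟨y, ?_⟩
      have h1 : v.valuation K ((2 : ℕ) : K) = 1 := by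
        apply le_antisymm
        · have h2 := v.valuation_le_one (K := K) ((2 : ℕ) : 𝓞 K)
          have h3 : ((((2 : ℕ) : 𝓞 K)) : K) = ((2 : ℕ) : K) := map_natCast (algebraMap (𝓞 K) K) 2
          rw [← h3]
          exact h2
        · rw [← not_lt]
          intro h
          exact ha ((above_iff 2 v).2 h)
      rw [map_pow, h1, one_pow]
      exact hy
  obtain ⟨y, hy⟩ := key
  have h1 := cl_of_val (p := 2) v (Q.P v) (Q.prime v) (Q.under v) (s * (y ^ 2)⁻¹) hy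
  have h2 := cl_kk hp hζ (Q.P v) (Q.prime v) (rn_ne Q v) (s * (y ^ 2)⁻¹) h1 σ hσ
  have h3 : s = s * (y ^ 2)⁻¹ * y ^ ((2 : ℕ) : ℤ) := by
    rw [zpow_natCast, inv_mul_cancel_right]
  rw [h3, kk_mul_arg hp hζ, h2, kk_zpow_arg hp hζ, zero_add, Int.cast_natCast, CharP.cast_eq_zero,
    zero_mul]


variable {K : IntermediateField ℚ QBar} [NumberField K]

private theorem lta_pl (c : Cub K) {𝔓 : Ideal (𝓞 QBar)} (hp : 𝔓.IsPrime) {v : Pl K}
    (hv : 𝔓.under (𝓞 K) = v.asIdeal) : ∃ P : Pl c.F, 𝔓.under (𝓞 c.F) = P.asIdeal ∧ Over P v := by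
  have hover : (𝔓.under (𝓞 c.F)).comap (algebraMap (𝓞 K) (𝓞 c.F)) = v.asIdeal := by
    rw [← hv]
    exact Ideal.ext fun a => Iff.rfl
  have hne : 𝔓.under (𝓞 c.F) ≠ ⊥ := by
    intro h
    apply v.ne_bot
    rw [← hover, h, ← RingHom.ker_eq_comap_bot]
    exact (RingHom.injective_iff_ker_eq_bot _).mp
      (NumberField.RingOfIntegers.algebraMap.injective K c.F)
  exact ⟨⟨𝔓.under (𝓞 c.F), Ideal.IsPrime.comap _, hne⟩, rfl, hover⟩

omit [NumberField K] in
private theorem lta_dec (c : Cub K) {𝔓 : Ideal (𝓞 QBar)} (σ : Gal(QBar/c.F))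
    (hσ : ∀ x : 𝓞 QBar, (σ.restrictScalars K : Gal(QBar/K)) • x ∈ 𝔓 ↔ x ∈ 𝔓) :
    σ ∈ dec (K := c.F) 𝔓 := fun x => hσ x

theorem ltr_ps (c : Cub K) (S : Finset (Pl K)) (D : RN c.F)
    (hD : ∀ P, OvS c S P → P ∈ D.S0) (x : c.Fˣ) (hx : PS 2 (-1 : c.F) D.S0 x) :
    LTr c S x := by
  rintro 𝔓 hp ⟨v, hvS, hv⟩ σ hσ
  have := alg_cl c.F
  obtain ⟨P, hP, hPv⟩ := lta_pl c hp hv
  obtain ⟨Q0⟩ := exists_DP c.F QBar
  let Q' : DP c.F QBar :=
    { P := Function.update Q0.P P 𝔓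
      prime := fun w => by
        by_cases hw : w = P
        · subst hw
          rw [Function.update_self]
          exact hp
        · rw [Function.update_of_ne hw]
          exact Q0.prime w
      under := fun w => by
        by_cases hw : w = P
        · subst hw
          rw [Function.update_self]
          exact hP
        · rw [Function.update_of_ne hw]
          exact Q0.under w }
  have hQ' : Q'.P P = 𝔓 := by
    change Function.update Q0.P P 𝔓 P = 𝔓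
    exact Function.update_self P 𝔓 Q0.P
  refine rn_triv D Q' x hx P
    (hD P ⟨v, hvS, hPv⟩) σ ?_
  rw [hQ']
  exact lta_dec c σ hσ

private theorem lta_le (c : Cub K) (S : Finset (Pl K)) {v : Pl K} (hv : v ∈ S) {P : Pl c.F}
    (hP : Over P v) : H57.LI.md (mS S) c.F ≤ Ideal.span {8} * P.asIdeal := by
  unfold H57.LI.md mS
  rw [Ideal.map_mul]
  refine Ideal.mul_mono ?_ ?_
  · rw [Ideal.map_span, Set.image_singleton, map_ofNat]
  · rw [Ideal.map_le_iff_le_comap]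
    have h1 : (∏ v ∈ S, v.asIdeal) ≤ v.asIdeal :=
      Ideal.le_of_dvd (Finset.dvd_prod_of_mem (fun v : Pl K => v.asIdeal) hv)
    exact h1.trans hP.ge

theorem ltr_ray (c : Cub K) (S : Finset (Pl K)) (x : c.Fˣ) (a : 𝓞 c.F)
    (hxa : (x : c.F) = algebraMap (𝓞 c.F) c.F a) (ha : a - 1 ∈ H57.LI.md (mS S) c.F) :
    LTr c S x := by
  rintro 𝔓 hp ⟨v, hvS, hv⟩ σ hσ
  have := alg_cl c.F
  obtain ⟨P, hP, hPv⟩ := lta_pl c hp hv
  obtain ⟨b, hb, hb8⟩ := Ideal.mem_span_singleton_mul.1 (lta_le c S hvS hPv ha)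
  have h2 : (x : c.F) - 1 = 8 * algebraMap (𝓞 c.F) c.F b := by
    rw [hxa]
    have h3 := congrArg (algebraMap (𝓞 c.F) c.F) hb8
    rw [map_mul, map_sub, map_one, map_ofNat] at h3
    exact h3.symm
  have hb1 : P.valuation c.F (algebraMap (𝓞 c.F) c.F b) < 1 :=
    (P.valuation_lt_one_iff_mem b).2 hb
  have h4 : P.valuation c.F ((x : c.F) - 1) < P.valuation c.F (((2 : ℕ) : c.F) ^ 2) := by
    have h5 : (8 : c.F) * algebraMap (𝓞 c.F) c.F b =
        ((2 : ℕ) : c.F) ^ 2 * algebraMap (𝓞 c.F) c.F (2 * b) := by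
      rw [map_mul, map_ofNat]
      push_cast
      ring
    have h6 : P.valuation c.F (algebraMap (𝓞 c.F) c.F (2 * b)) < 1 :=
      (P.valuation_lt_one_iff_mem _).2 (P.asIdeal.mul_mem_left 2 hb)
    have h7 : P.valuation c.F (((2 : ℕ) : c.F) ^ 2) ≠ 0 := by
      rw [Valuation.ne_zero_iff]
      norm_num
    rw [h2, h5, map_mul]
    exact mul_lt_of_lt_one_right (zero_lt_iff.2 h7) h6
  have h8 := cl_of_val (p := 2) P 𝔓 hp hP x h4
  have h9 : 𝔓 ≠ ⊥ := by
    intro h0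
    apply P.ne_bot
    rw [← hP, h0, Ideal.under, ← RingHom.ker_eq_comap_bot]
    exact (RingHom.injective_iff_ker_eq_bot _).mp
      (NumberField.RingOfIntegers.algebraMap.injective c.F QBar)
  exact cl_kk Nat.prime_two (neg_one_prim c.F) 𝔓 hp h9 x h8 σ (lta_dec c σ hσ)

end H48.AQ
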