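import Pool.Agent.H48.T3.TyA

/-!
# AQ: the approximation lemma; the number of local types depends only on the character at `S` (every number field)
-/

set_option autoImplicit false

open scoped NumberField Classical
open IsDedekindDomain H38.ML H63.MA

noncomputable section

namespace H48.AQ

open H48.KV H48.T3

variable {K : IntermediateField ℚ QBar} [NumberField K]

theorem apx {G : Type} [Group G] (k : KV G) (hk : ∀ g, k.pi g = 1 → g ∈ k.V)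
    (Q : DP K QBar) (S : Finset (Pl K)) (χ χ' : Gal(QBar/K) →* Multiplicative (ZMod 3))
    (hχ : χ ∈ Ch K) (hχ' : χ' ∈ Ch K) (hT : Teq S Q χ χ') (φ : Gal(QBar/K) →* G) (hft : FT φ)
    (hφ : k.pi.comp φ = χ) : ∃ φ' : Gal(QBar/K) →* G, FT φ' ∧ Function.Surjective φ' ∧
      k.pi.comp φ' = χ' ∧
      ∀ v ∈ S, ∃ δ ∈ k.V, ∀ σ ∈ dec (K := K) (Q.P v), φ σ = δ * φ' σ * δ⁻¹ := by
  obtain ⟨s, hs⟩ := sec_ex k hk
  have hpi0 : ∀ σ, k.pi ((s.comp χ') σ) = χ' σ := fun σ => hs _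
  have hft0 : FT (s.comp χ') := ft_comp s χ' hχ'.1
  have hs0 : Function.Surjective (k.pi.comp (s.comp χ')) := by
    intro x
    obtain ⟨σ, hσ⟩ := hχ'.2 x
    refine ⟨σ, ?_⟩
    rw [MonoidHom.comp_apply, hpi0, hσ]
  obtain ⟨F, γ, τ, h⟩ := ax_fd (k := k) hft0 hs0
  have hnf : NumberField F := fd_nf h
  obtain ⟨φ', h1, h2, h3, h4⟩ := ax_surj h hk hft0 hs0 (fun σ hσ => by
    rw [hpi0] at hσ
    rw [MonoidHom.comp_apply, hσ, map_one]) Q S (fun _ => φ) (fun _ _ => hft) (fun v hv σ hσ => by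
    rw [hpi0, ← hT v hv σ hσ, ← hφ]
    rfl)
  refine ⟨φ', h1, h2, ?_, h4⟩
  ext1 σ
  rw [MonoidHom.comp_apply, eqv_pi k h3, hpi0]

variable {G : Type} [Group G]

theorem lq_quot (k : KV G) (S : Finset (Pl K)) (Q : DP K QBar)
    (χ : Gal(QBar/K) →* Multiplicative (ZMod 3)) (p : (Gal(QBar/K) →* G) → Prop)
    (x y : {φ : Gal(QBar/K) →* G // φ ∈ SL k χ ∧ p φ}) :
    Quot.mk (fun φ φ' : {φ : Gal(QBar/K) →* G // φ ∈ SL k χ ∧ p φ} => Lq k S Q φ.1 φ'.1) x =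
      Quot.mk _ y ↔ Lq k S Q x.1 y.1 := by
  have he : Equivalence
      (fun φ φ' : {φ : Gal(QBar/K) →* G // φ ∈ SL k χ ∧ p φ} => Lq k S Q φ.1 φ'.1) :=
    ⟨fun φ => lq_refl k S Q φ.1, fun h => lq_symm h, fun h h' => lq_trans h h'⟩
  constructor
  · intro h
    exact he.eqvGen_iff.1 (Quot.eqvGen_exact h)
  · intro h
    exact Quot.sound h

private theorem nty_step (k : KV G) (hk : ∀ g, k.pi g = 1 → g ∈ k.V)
    (Q : DP K QBar) (S : Finset (Pl K)) (χ χ' : Gal(QBar/K) →* Multiplicative (ZMod 3))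
    (hχ : χ ∈ Ch K) (hχ' : χ' ∈ Ch K) (hT : Teq S Q χ χ') (p : (Gal(QBar/K) →* G) → Prop)
    (hp : ∀ φ φ' : Gal(QBar/K) →* G, FT φ → Function.Surjective φ → FT φ' →
      Function.Surjective φ' → Lq k S Q φ φ' → (p φ ↔ p φ'))
    (x : {φ : Gal(QBar/K) →* G // φ ∈ SL k χ ∧ p φ}) :
    ∃ y : {φ : Gal(QBar/K) →* G // φ ∈ SL k χ' ∧ p φ}, Lq k S Q x.1 y.1 := by
  obtain ⟨φ, ⟨h1, h2, h3⟩, h4⟩ := x
  obtain ⟨φ', g1, g2, g3, g4⟩ := apx k hk Q S χ χ' hχ hχ' hT φ h1 h3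
  exact ⟨⟨φ', ⟨g1, g2, g3⟩, (hp φ φ' h1 h2 g1 g2 g4).1 h4⟩, g4⟩

theorem nty_inv (k : KV G) (hk : ∀ g, k.pi g = 1 → g ∈ k.V) (Q : DP K QBar)
    (S : Finset (Pl K)) (χ χ' : Gal(QBar/K) →* Multiplicative (ZMod 3)) (hχ : χ ∈ Ch K)
    (hχ' : χ' ∈ Ch K) (hT : Teq S Q χ χ') (p : (Gal(QBar/K) →* G) → Prop)
    (hp : ∀ φ φ' : Gal(QBar/K) →* G, FT φ → Function.Surjective φ → FT φ' →
      Function.Surjective φ' → Lq k S Q φ φ' → (p φ ↔ p φ')) :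
    nty k S Q χ p = nty k S Q χ' p := by
  have hT' : Teq S Q χ' χ := fun v hv σ hσ => (hT v hv σ hσ).symm
  choose f hf using nty_step k hk Q S χ χ' hχ hχ' hT p hp
  choose g hg using nty_step k hk Q S χ' χ hχ' hχ hT' p hp
  unfold nty
  have hs : ∀ a b : {φ : Gal(QBar/K) →* G // φ ∈ SL k χ ∧ p φ}, Lq k S Q a.1 b.1 →
      Lq k S Q (f a).1 (f b).1 := fun a b h => lq_trans (lq_symm (hf a)) (lq_trans h (hf b))
  refine Nat.card_eq_of_bijective (Quot.map f hs) ⟨?_, ?_⟩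
  · rintro ⟨a⟩ ⟨b⟩ h
    have h' := (lq_quot k S Q χ' p (f a) (f b)).1 h
    exact (lq_quot k S Q χ p a b).2 (lq_trans (hf a) (lq_trans h' (lq_symm (hf b))))
  · rintro ⟨b⟩
    refine ⟨Quot.mk _ (g b), ?_⟩
    exact (lq_quot k S Q χ' p (f (g b)) b).2 (lq_symm (lq_trans (hg b) (hf (g b))))

end H48.AQ
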