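import Pool.Agent.H48.AQ.Lt
import Pool.Agent.H63.MA.GUpA

/-!
# AQ: `Lˣ / (PS · squares)` is finite, for every number field `L`
-/

set_option autoImplicit false

open scoped NumberField Classical
open IsDedekindDomain H38.ML H63.MA

noncomputable section

namespace H48.AQ

open H48.KV H48.T3

theorem rn_ps {L : Type} [Field L] [NumberField L] (D : RN L) (T : Finset (Pl L)) (hT : ∀ v ∈ T, v ∉ D.S0)
    (n : Pl L → ℤ) (hq : ∑ v ∈ T, ((n v : ℤ) : ZMod 2) • D.q v = 0) :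
    PS 2 (-1 : L) D.S0 (∏ v ∈ T, D.pi v ^ n v) := by
  classical
  let m : Pl L →₀ ℤ := Finsupp.onFinset T (fun v => if v ∈ T then n v else 0)
    (fun v hv => by
      by_contra h
      exact hv (if_neg h))
  have hm : ∀ v, m v = if v ∈ T then n v else 0 := fun v => rfl
  have hsup : m.support ⊆ T := Finsupp.support_onFinset_subset
  have h1 : (m.sum fun v k => (k : ZMod 2) • D.q v) = ∑ v ∈ T, ((n v : ℤ) : ZMod 2) • D.q v := by
    rw [Finsupp.sum_of_support_subset m hsup _ (fun v _ => by rw [Int.cast_zero, zero_smul])]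
    exact Finset.sum_congr rfl fun v hv => by rw [hm, if_pos hv]
  have h2 : (m.prod fun v k => D.pi v ^ k) = ∏ v ∈ T, D.pi v ^ n v := by
    rw [Finsupp.prod_of_support_subset m hsup _ (fun v _ => by rw [zpow_zero])]
    exact Finset.prod_congr rfl fun v hv => by rw [hm, if_pos hv]
  have h3 := D.prim_of m (fun v hv => by
    rw [hm, if_neg]
    intro h
    exact hT v h hv) (by rw [h1, hq])
  rw [h2] at h3
  exact h3

private theorem psf_F {L : Type} [Field L] [NumberField L]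
    (D : RN L) (U : Finset Lˣ)
    (hU : ∀ x, TUnit D.S0 x → ∃ u ∈ U, ∃ y : Lˣ, x = u * y ^ 2) :
    ∃ F : Lˣ → U × (Fin D.r → ZMod 2), ∀ b b', F b = F b' → ∃ y s : Lˣ, PS 2 (-1 : L) D.S0 s ∧
      b' = b * y ^ 2 * s := by
  have hfin : ∀ b : Lˣ, ∃ T : Finset (Pl L), (∀ v ∈ T, v ∉ D.S0) ∧
      ∀ v, v ∉ T → v ∉ D.S0 → ord v b = 0 := by
    intro b
    refine ⟨(finite_ord b).toFinset.filter (fun v => v ∉ D.S0),
      fun v hv => (Finset.mem_filter.1 hv).2, fun v hv hv0 => ?_⟩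
    by_contra h
    exact hv (Finset.mem_filter.2 ⟨(finite_ord b).mem_toFinset.2 h, hv0⟩)
  choose T hT0 hT1 using hfin
  have hordp : ∀ (T' : Finset (Pl L)), (∀ v ∈ T', v ∉ D.S0) → ∀ b : Lˣ,
      (∀ v, v ∉ T' → v ∉ D.S0 → ord v b = 0) →
      TUnit D.S0 (b * (∏ v ∈ T', D.pi v ^ ord v b)⁻¹) := by
    intro T' hT' b hb w hw
    rw [ord_mul, ord_inv, ord_prod]
    have h1 : ∀ v ∈ T', ord w (D.pi v ^ ord v b) = if v = w then ord w b else 0 := by
      intro v hv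
      rw [ord_zpow]
      split_ifs with h
      · rw [h, D.pi_self w hw, mul_one]
      · rw [D.pi_ne v w (hT' v hv) hw (Ne.symm h), mul_zero]
    rw [Finset.sum_congr rfl h1]
    by_cases hwT : w ∈ T'
    · rw [Finset.sum_ite_eq' T' w, if_pos hwT]
      ring
    · rw [hb w hwT hw]
      simp
  have hrep : ∀ b : Lˣ, ∃ u ∈ U, ∃ y : Lˣ,
      b * (∏ v ∈ T b, D.pi v ^ ord v b)⁻¹ = u * y ^ 2 :=
    fun b => hU _ (hordp (T b) (hT0 b) b (hT1 b))
  choose u hu y hy using hrep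
  refine ⟨fun b => (⟨u b, hu b⟩, ∑ v ∈ T b, ((ord v b : ℤ) : ZMod 2) • D.q v), ?_⟩
  intro b b' hF
  have hF1 : u b = u b' := congrArg (fun z : U × (Fin D.r → ZMod 2) => (z.1 : Lˣ)) hF
  have hF2 : ∑ v ∈ T b, ((ord v b : ℤ) : ZMod 2) • D.q v =
      ∑ v ∈ T b', ((ord v b' : ℤ) : ZMod 2) • D.q v :=
    congrArg (fun z : U × (Fin D.r → ZMod 2) => z.2) hF
  have hbb : ∀ b : Lˣ, b = (∏ v ∈ T b, D.pi v ^ ord v b) * (u b * y b ^ 2) := by
    intro b
    rw [← hy b, mul_comm b, mul_inv_cancel_left]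
  -- a common set of primes
  obtain ⟨T', hT'e⟩ : ∃ T' : Finset (Pl L), T' = T b ∪ T b' := ⟨_, rfl⟩
  have hT' : ∀ v ∈ T', v ∉ D.S0 := by
    intro v hv
    rw [hT'e] at hv
    rcases Finset.mem_union.1 hv with h | h
    · exact hT0 b v h
    · exact hT0 b' v h
  have hz : ∀ c : Lˣ, T c ⊆ T' → ∏ v ∈ T', D.pi v ^ ord v c = ∏ v ∈ T c, D.pi v ^ ord v c := by
    intro c hc
    refine (Finset.prod_subset hc fun v hv hvc => ?_).symm
    rw [hT1 c v hvc (hT' v hv), zpow_zero]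
  have hzs : ∀ c : Lˣ, T c ⊆ T' → ∑ v ∈ T', ((ord v c : ℤ) : ZMod 2) • D.q v =
      ∑ v ∈ T c, ((ord v c : ℤ) : ZMod 2) • D.q v := by
    intro c hc
    refine (Finset.sum_subset hc fun v hv hvc => ?_).symm
    rw [hT1 c v hvc (hT' v hv), Int.cast_zero, zero_smul]
  have hb1 : T b ⊆ T' := by
    rw [hT'e]
    exact Finset.subset_union_left
  have hb2 : T b' ⊆ T' := by
    rw [hT'e]
    exact Finset.subset_union_right
  have hps : PS 2 (-1 : L) D.S0 (∏ v ∈ T', D.pi v ^ (ord v b' - ord v b)) := by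
    apply rn_ps D T' hT' (fun v => ord v b' - ord v b)
    have h1 : ∀ v ∈ T', (((ord v b' - ord v b : ℤ)) : ZMod 2) • D.q v =
        ((ord v b' : ℤ) : ZMod 2) • D.q v - ((ord v b : ℤ) : ZMod 2) • D.q v := by
      intro v _
      rw [Int.cast_sub, sub_smul]
    rw [Finset.sum_congr rfl h1, Finset.sum_sub_distrib, hzs b hb1, hzs b' hb2, hF2, sub_self]
  refine ⟨y b' * (y b)⁻¹, _, hps, ?_⟩
  have h1 : (∏ v ∈ T', D.pi v ^ (ord v b' - ord v b)) =
      (∏ v ∈ T', D.pi v ^ ord v b') * (∏ v ∈ T', D.pi v ^ ord v b)⁻¹ := by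
    rw [← Finset.prod_inv_distrib, ← Finset.prod_mul_distrib]
    refine Finset.prod_congr rfl fun v _ => ?_
    rw [zpow_sub]
  rw [h1, hz b hb1, hz b' hb2]
  obtain ⟨A, hA⟩ : ∃ A : Lˣ, A = ∏ v ∈ T b, D.pi v ^ ord v b := ⟨_, rfl⟩
  obtain ⟨A', hA'⟩ : ∃ A' : Lˣ, A' = ∏ v ∈ T b', D.pi v ^ ord v b' := ⟨_, rfl⟩
  have e1 : b = A * (u b * y b ^ 2) := by
    rw [hA]
    exact hbb b
  have e2 : b' = A' * (u b * y b' ^ 2) := by
    rw [hA', hF1]
    exact hbb b'
  rw [← hA, ← hA']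
  calc b' = A' * (u b * y b' ^ 2) := e2
    _ = A * (u b * y b ^ 2) * (y b' * (y b)⁻¹) ^ 2 * (A' * A⁻¹) := by
      rw [mul_pow, inv_pow]
      have h2 : A * (u b * y b ^ 2) * (y b' ^ 2 * (y b ^ 2)⁻¹) * (A' * A⁻¹) =
          (A * A⁻¹) * (y b ^ 2 * (y b ^ 2)⁻¹) * (A' * (u b * y b' ^ 2)) := by
        simp only [mul_comm, mul_left_comm, mul_assoc]
      rw [h2, mul_inv_cancel, mul_inv_cancel, one_mul, one_mul]
    _ = b * (y b' * (y b)⁻¹) ^ 2 * (A' * A⁻¹) := by rw [← e1]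

theorem psf {L : Type} [Field L] [NumberField L]
    (D : RN L) : ∃ B : Finset Lˣ, ∀ x : Lˣ, ∃ b ∈ B, ∃ y s : Lˣ, PS 2 (-1 : L) D.S0 s ∧
      x = b * y ^ 2 * s := by
  obtain ⟨U, -, hU⟩ := unit_reps Nat.prime_two D.S0
  obtain ⟨F, hF⟩ := psf_F D U hU
  refine ⟨Finset.univ.image (Function.invFun F), fun x => ?_⟩
  refine ⟨Function.invFun F (F x), Finset.mem_image_of_mem _ (Finset.mem_univ _), ?_⟩
  have h1 : F (Function.invFun F (F x)) = F x := Function.invFun_eq ⟨x, rfl⟩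
  exact hF _ _ h1

theorem psf_cl {L : Type} [Field L] [NumberField L] (D : RN L) (v v' : Pl L)
    (hv : v ∉ D.S0) (hv' : v' ∉ D.S0) (h : D.q v = D.q v') :
    PS 2 (-1 : L) D.S0 (D.pi v * D.pi v') := by
  have h1 := D.prim_of (Finsupp.single v 1 + Finsupp.single v' 1) (fun w hw => by
    rw [Finsupp.add_apply, Finsupp.single_eq_of_ne, Finsupp.single_eq_of_ne, add_zero]
    · rintro rfl
      exact hv' hw
    · rintro rfl
      exact hv hw) (by
    rw [Finsupp.sum_add_index' (fun _ => by rw [Int.cast_zero, zero_smul])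
      (fun _ _ _ => by rw [Int.cast_add, add_smul]),
      Finsupp.sum_single_index (by rw [Int.cast_zero, zero_smul]),
      Finsupp.sum_single_index (by rw [Int.cast_zero, zero_smul]), h, Int.cast_one, one_smul]
    funext i
    exact CharTwo.add_self_eq_zero _)
  rw [Finsupp.prod_add_index' (fun _ => zpow_zero _) (fun _ _ _ => zpow_add _ _ _),
    Finsupp.prod_single_index (zpow_zero _), Finsupp.prod_single_index (zpow_zero _), zpow_one,
    zpow_one] at h1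
  exact h1

end H48.AQ
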