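import Pool.Agent.H48.T3.TCd

/-!
# AQ: the number of `T`-units modulo squares of any number field: `2 ^ (#T + #infinite places)`
-/

set_option autoImplicit false

open scoped NumberField Classical
open IsDedekindDomain H38.ML H63.MA

noncomputable section

namespace H48.AQ

open H48.T3

private theorem tcd_tors (L : Type) [Field L] [NumberField L] : ∃ u0 : Lˣ, IsOfFinOrder u0 ∧
    (∀ v : Pl L, ord v u0 = 0) ∧ ∀ z : Lˣ, IsOfFinOrder z → ∃ c : ℤ, u0 ^ c = z := by
  obtain ⟨⟨g, hg⟩, hgen⟩ := IsCyclic.exists_generator (α := NumberField.Units.torsion L)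
  have hinj : Function.Injective (sunit_co L) := by
    intro a b hab
    apply Units.ext
    apply FaithfulSMul.algebraMap_injective (𝓞 L) L
    exact congrArg (fun u : Lˣ => (u : L)) hab
  refine ⟨sunit_co L g, ?_, fun v => sunit_co_ord v g, ?_⟩
  · have h1 : IsOfFinOrder g := (CommGroup.mem_torsion g).1 hg
    exact (sunit_co L).isOfFinOrder h1
  · intro z hz
    obtain ⟨m, hm, hzm⟩ := isOfFinOrder_iff_pow_eq_one.1 hz
    have h1 : ∀ v : Pl L, ord v z = 0 := by
      intro v
      have h2 : (m : ℤ) * ord v z = 0 := by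
        rw [← ord_pow, hzm, ord_one]
      rcases mul_eq_zero.1 h2 with h | h
      · exfalso
        have : m = 0 := by exact_mod_cast h
        omega
      · exact h
    obtain ⟨u, hu⟩ := sunit_exists z h1
    have h2 : u ∈ NumberField.Units.torsion L := by
      refine (CommGroup.mem_torsion u).2 (isOfFinOrder_iff_pow_eq_one.2 ⟨m, hm, ?_⟩)
      apply hinj
      rw [map_pow, hu, hzm, map_one]
    obtain ⟨c, hc⟩ := Subgroup.mem_zpowers_iff.1 (hgen ⟨u, h2⟩)
    refine ⟨c, ?_⟩
    have h3 : g ^ c = u := by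
      have h4 := congrArg (fun x : NumberField.Units.torsion L => (x : (𝓞 L)ˣ)) hc
      simpa using h4
    rw [← map_zpow, h3, hu]

/-- generators of the group of the `T`-units -/
private theorem tcd_gen (L : Type) [Field L] [NumberField L] (T : Finset (Pl L)) :
    ∃ (k : ℕ) (u : Fin k → Lˣ), k = T.card + Fintype.card (NumberField.InfinitePlace L) ∧
      ∀ x ∈ UT T, ∃ a : Fin k → ℤ, x = ∏ i, u i ^ a i := by
  obtain ⟨u0, hu0f, hu0o, hu0g⟩ := tcd_tors L
  have hfin := ut_finite T
  set M := Additive (UT T) with hM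
  set R : Submodule ℤ M := Submodule.torsion ℤ M with hR
  have hr : Module.finrank ℤ (M ⧸ R) = NumberField.Units.rank L + T.card := by
    rw [← ut_rank T]
    have h1 := Submodule.finrank_quotient_add_finrank R
    have h2 : Module.finrank ℤ R = 0 := by
      rw [Module.finrank_eq_zero_iff]
      rintro ⟨x, hx⟩
      obtain ⟨a, ha⟩ := (Submodule.mem_torsion_iff x).1 hx
      refine ⟨(a : ℤ), nonZeroDivisors.coe_ne_zero a, ?_⟩
      apply Subtype.ext
      exact ha
    rw [h2, add_zero] at h1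
    exact h1
  set n := Module.finrank ℤ (M ⧸ R) with hn
  let b := Module.finBasis ℤ (M ⧸ R)
  choose m hm using fun i => Submodule.mkQ_surjective R (b i)
  set w : Fin n → Lˣ := fun i => ((Additive.toMul (m i) : UT T) : Lˣ) with hw
  have hk : n + 1 = T.card + Fintype.card (NumberField.InfinitePlace L) := by
    rw [hr, NumberField.Units.rank]
    have h1 : 0 < Fintype.card (NumberField.InfinitePlace L) := Fintype.card_pos
    omega
  refine ⟨n + 1, Fin.cons u0 w, hk, ?_⟩
  intro x hx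
  set Y : M := Additive.ofMul (⟨x, hx⟩ : UT T) with hY
  obtain ⟨c, hc⟩ : ∃ c : Fin n → ℤ, c = fun i => b.repr (R.mkQ Y) i := ⟨_, rfl⟩
  have h1 : R.mkQ Y = R.mkQ (∑ i, c i • m i) := by
    rw [map_sum]
    have h2 := b.sum_repr (R.mkQ Y)
    rw [← h2]
    refine Finset.sum_congr rfl fun i _ => ?_
    rw [map_smul, hm, hc]
  have h2 : Y - ∑ i, c i • m i ∈ R := by
    rw [← Submodule.Quotient.mk_eq_zero, Submodule.Quotient.mk_sub, sub_eq_zero]
    exact h1
  obtain ⟨a, ha⟩ := (Submodule.mem_torsion_iff _).1 h2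
  -- the torsion part
  obtain ⟨z, hz⟩ : ∃ z : Lˣ, z = x * (∏ i, w i ^ c i)⁻¹ := ⟨_, rfl⟩
  have h3 : ((Additive.toMul (Y - ∑ i, c i • m i) : UT T) : Lˣ) = z := by
    rw [hz, toMul_sub, toMul_sum, div_eq_mul_inv, Subgroup.coe_mul, Subgroup.coe_inv,
      Subgroup.val_finsetProd]
    rfl
  have h4 : z ^ ((a : ℤ)) = 1 := by
    rw [← h3]
    have h5 : (a : ℤ) • (Y - ∑ i, c i • m i) = 0 := ha
    have h6 := congrArg (fun t : M => ((Additive.toMul t : UT T) : Lˣ)) h5
    exact h6
  have h5 : IsOfFinOrder z := isOfFinOrder_iff_zpow_eq_one.2 ⟨(a : ℤ), nonZeroDivisors.coe_ne_zero a, h4⟩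
  obtain ⟨e, he⟩ := hu0g z h5
  refine ⟨Fin.cons e c, ?_⟩
  rw [Fin.prod_univ_succ]
  simp only [Fin.cons_zero, Fin.cons_succ]
  rw [he, hz, inv_mul_cancel_right]

private theorem tcd_ind {K : Type} [Field K] [NumberField K] {p : ℕ} {ζ : K} (hp : p.Prime)
    (hζ : IsPrimitiveRoot ζ p) (S0 : Finset (Pl K)) :
    ∃ (k : ℕ) (u : Fin k → Kˣ), k = S0.card + Fintype.card (NumberField.InfinitePlace K) ∧ (∀ i, u i ∈ UT S0) ∧
      ∀ a : Fin k → ℕ, IsPow p (∏ i, u i ^ a i) → ∀ i, p ∣ a i := by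
  obtain ⟨u0, hu0f, hu0o, hu0g⟩ := tcd_tors K
  have hfin := ut_finite S0
  set M := Additive (UT S0) with hM
  set T : Submodule ℤ M := Submodule.torsion ℤ M with hT
  -- the rank
  have hr : Module.finrank ℤ (M ⧸ T) = NumberField.Units.rank K + S0.card := by
    rw [← ut_rank S0]
    have h1 := Submodule.finrank_quotient_add_finrank T
    have h2 : Module.finrank ℤ T = 0 := by
      rw [Module.finrank_eq_zero_iff]
      rintro ⟨x, hx⟩
      obtain ⟨a, ha⟩ := (Submodule.mem_torsion_iff x).1 hx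
      refine ⟨(a : ℤ), nonZeroDivisors.coe_ne_zero a, ?_⟩
      apply Subtype.ext
      exact ha
    rw [h2, add_zero] at h1
    exact h1
  set n := Module.finrank ℤ (M ⧸ T) with hn
  let b := Module.finBasis ℤ (M ⧸ T)
  choose m hm using fun i => Submodule.mkQ_surjective T (b i)
  set w : Fin n → Kˣ := fun i => ((Additive.toMul (m i) : UT S0) : Kˣ) with hw
  have hk : n + 1 = S0.card + Fintype.card (NumberField.InfinitePlace K) := by
    rw [hr, NumberField.Units.rank]
    have h1 : 0 < Fintype.card (NumberField.InfinitePlace K) := Fintype.card_pos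
    omega
  refine ⟨n + 1, Fin.cons u0 w, hk, ?_, ?_⟩
  · intro i
    refine Fin.cases ?_ (fun j => ?_) i
    · rw [Fin.cons_zero]
      exact fun v _ => hu0o v
    · rw [Fin.cons_succ]
      exact (Additive.toMul (m j) : UT S0).2
  · intro a ha
    obtain ⟨y, hy⟩ := ha
    rw [Fin.prod_univ_succ, Fin.cons_zero] at hy
    simp only [Fin.cons_succ] at hy
    have hyU : y ∈ UT S0 := by
      intro v hv
      have h1 : (p : ℤ) * ord v y = 0 := by
        rw [← ord_pow, hy, ord_mul, ord_pow, hu0o v, mul_zero, zero_add, ord_prod]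
        refine Finset.sum_eq_zero fun i _ => ?_
        rw [ord_pow]
        have h2 : ord v (w i) = 0 := (Additive.toMul (m i) : UT S0).2 v hv
        rw [h2, mul_zero]
      rcases mul_eq_zero.1 h1 with h | h
      · exfalso
        exact hp.ne_zero (by exact_mod_cast h)
      · exact h
    -- coordinates
    have hu0U : u0 ∈ UT S0 := fun v _ => hu0o v
    set Y : M := Additive.ofMul (⟨y, hyU⟩ : UT S0) with hY
    set U : M := Additive.ofMul (⟨u0, hu0U⟩ : UT S0) with hU
    have h1 : p • Y = a 0 • U + ∑ i, a (Fin.succ i) • m i := by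
      have h2 : (⟨y, hyU⟩ : UT S0) ^ p =
          (⟨u0, hu0U⟩ : UT S0) ^ a 0 * ∏ i, (Additive.toMul (m i) : UT S0) ^ a (Fin.succ i) := by
        apply Subtype.ext
        rw [Subgroup.coe_pow, Subgroup.coe_mul, Subgroup.coe_pow, Subgroup.val_finsetProd]
        exact hy
      have h3 := congrArg Additive.ofMul h2
      rw [ofMul_pow, ofMul_mul, ofMul_pow, ofMul_prod] at h3
      exact h3
    have hUT : T.mkQ U = 0 := by
      rw [Submodule.mkQ_apply, Submodule.Quotient.mk_eq_zero]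
      obtain ⟨N, hN, hN1⟩ := isOfFinOrder_iff_pow_eq_one.1 hu0f
      refine (Submodule.mem_torsion_iff U).2 ⟨⟨(N : ℤ), mem_nonZeroDivisors_of_ne_zero
        (by exact_mod_cast hN.ne')⟩, ?_⟩
      have h2 : (⟨u0, hu0U⟩ : UT S0) ^ N = 1 := by
        apply Subtype.ext
        rw [Subgroup.coe_pow]
        exact hN1
      have h3 := congrArg Additive.ofMul h2
      rw [ofMul_pow, ofMul_one] at h3
      have h4 : (N : ℤ) • U = 0 := by
        rw [natCast_zsmul]
        exact h3
      exact h4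
    have h2 : p • T.mkQ Y = ∑ i, a (Fin.succ i) • b i := by
      rw [← map_nsmul, h1, map_add, map_nsmul, hUT, smul_zero, zero_add, map_sum]
      refine Finset.sum_congr rfl fun i _ => ?_
      rw [map_nsmul, hm]
    have h3 : ∀ i, (p : ℤ) * b.repr (T.mkQ Y) i = a (Fin.succ i) := by
      intro i
      have h4 := congrArg (fun z => b.repr z i) h2
      simp only [map_nsmul, Finsupp.smul_apply, map_sum, Finsupp.coe_finsetSum,
        Finset.sum_apply, Module.Basis.repr_self, Finsupp.single_apply] at h4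
      rw [nsmul_eq_mul] at h4
      rw [h4, Finset.sum_eq_single i]
      · simp
      · intro j _ hj
        simp [hj]
      · intro h
        exact absurd (Finset.mem_univ i) h
    have h4 : ∀ i, p ∣ a (Fin.succ i) := by
      intro i
      have h5 : (p : ℤ) ∣ (a (Fin.succ i) : ℤ) := ⟨_, (h3 i).symm⟩
      exact_mod_cast h5
    intro i
    refine Fin.cases ?_ (fun j => h4 j) i
    choose c hc using h4
    -- the torsion part
    set z : Kˣ := y * (∏ i, w i ^ c i)⁻¹ with hz
    have h5 : z ^ p = u0 ^ a 0 := by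
      rw [hz, mul_pow, hy, inv_pow, ← Finset.prod_pow]
      have h6 : ∀ i, (w i ^ c i) ^ p = w i ^ a (Fin.succ i) := by
        intro i
        rw [hc i, ← pow_mul, mul_comm]
      simp only [h6]
      rw [mul_inv_cancel_right]
    have h6 : IsOfFinOrder z := by
      have h7 : IsOfFinOrder (z ^ p) := by
        rw [h5]
        exact hu0f.pow
      exact h7.of_pow hp.ne_zero
    obtain ⟨e, he⟩ := hu0g z h6
    have h7 : u0 ^ ((a 0 : ℤ) - e * p) = 1 := by
      rw [zpow_sub, zpow_mul, he, zpow_natCast, zpow_natCast, h5, mul_inv_cancel]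
    have h8 : (orderOf u0 : ℤ) ∣ (a 0 : ℤ) - e * p := orderOf_dvd_iff_zpow_eq_one.2 h7
    have h9 : p ∣ orderOf u0 := by
      have hζ0 : ζ ≠ 0 := hζ.ne_zero hp.ne_zero
      set Z : Kˣ := Units.mk0 ζ hζ0 with hZ
      have hZp : IsPrimitiveRoot Z p := by
        rw [← IsPrimitiveRoot.coe_units_iff]
        exact hζ
      have hZo : orderOf Z = p := hZp.eq_orderOf.symm
      have hZf : IsOfFinOrder Z := by
        refine isOfFinOrder_iff_pow_eq_one.2 ⟨p, hp.pos, hZp.pow_eq_one⟩
      obtain ⟨d, hd⟩ := hu0g Z hZf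
      rw [← hZo, ← hd]
      rw [orderOf_dvd_iff_pow_eq_one, ← zpow_natCast, ← zpow_mul, mul_comm, zpow_mul, zpow_natCast,
        pow_orderOf_eq_one, one_zpow]
    have h10 : (p : ℤ) ∣ (a 0 : ℤ) - e * p := dvd_trans (by exact_mod_cast h9) h8
    have h11 : (p : ℤ) ∣ (a 0 : ℤ) := by
      have := dvd_add h10 (Dvd.intro_left e rfl : (p : ℤ) ∣ e * p)
      rwa [sub_add_cancel] at this
    exact_mod_cast h11


private theorem tcd_v2_zpow {L : Type} [Field L] (a : Lˣ) (n : ℤ) : v2 (a ^ n) = (n : ZMod 2) • v2 a := by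
  rw [Int.cast_smul_eq_zsmul]
  rfl

private theorem tcd_v2_pow {L : Type} [Field L] (a : Lˣ) (n : ℕ) : v2 (a ^ n) = (n : ZMod 2) • v2 a := by
  rw [Nat.cast_smul_eq_nsmul]
  rfl

private theorem tcd_v2_prod {L : Type} [Field L] {k : ℕ} (f : Fin k → Lˣ) :
    v2 (∏ i, f i) = ∑ i, v2 (f i) := by
  induction k with
  | zero =>
    rw [Finset.univ_eq_empty, Finset.prod_empty, Finset.sum_empty]
    rfl
  | succ k ih => rw [Fin.prod_univ_succ, Fin.sum_univ_succ, v2_mul, ih]

theorem tu_card (L : Type) [Field L] [NumberField L] (T : Finset (Pl L)) :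
    ∃ k : ℕ, k = T.card + Fintype.card (NumberField.InfinitePlace L) ∧ (XU T).Finite ∧
      (XU T).ncard = 2 ^ k := by
  obtain ⟨k, u, hk, hu⟩ := tcd_gen L T
  obtain ⟨k', u', hk', hu', hind⟩ := tcd_ind Nat.prime_two (neg_one_prim L) T
  have hkk : k' = k := by omega
  subst hkk
  have hcard : Nat.card (Fin k' → ZMod 2) = 2 ^ k' := by
    rw [Nat.card_eq_fintype_card, Fintype.card_fun, Fintype.card_fin, ZMod.card]
  -- the upper bound
  obtain ⟨φ, hφ⟩ : ∃ φ : (Fin k' → ZMod 2) → V2 L, ∀ a, φ a = ∑ i, a i • v2 (u i) := ⟨_, fun _ => rfl⟩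
  have hsub : XU T ⊆ φ '' Set.univ := by
    rintro _ ⟨x, hx, rfl⟩
    obtain ⟨a, ha⟩ := hu x hx
    refine ⟨fun i => (a i : ZMod 2), Set.mem_univ _, ?_⟩
    rw [hφ, ha, tcd_v2_prod]
    refine Finset.sum_congr rfl fun i _ => ?_
    rw [tcd_v2_zpow]
  have hfin : (XU T).Finite := (Set.finite_univ.image φ).subset hsub
  have hle : (XU T).ncard ≤ 2 ^ k' := by
    refine (Set.ncard_le_ncard hsub (Set.finite_univ.image φ)).trans ?_
    refine (Set.ncard_image_le Set.finite_univ).trans ?_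
    rw [Set.ncard_univ, hcard]
  -- the lower bound
  obtain ⟨ψ, hψ⟩ : ∃ ψ : (Fin k' → ZMod 2) → V2 L, ∀ a, ψ a = ∑ i, a i • v2 (u' i) := ⟨_, fun _ => rfl⟩
  have hval : ∀ a : Fin k' → ZMod 2, ψ a = v2 (∏ i, u' i ^ (a i).val) := by
    intro a
    rw [hψ, tcd_v2_prod]
    refine Finset.sum_congr rfl fun i _ => ?_
    rw [tcd_v2_pow, ZMod.natCast_zmod_val]
  have hker : ∀ a : Fin k' → ZMod 2, ψ a = 0 → a = 0 := by
    intro a ha
    rw [hval] at ha
    have h1 : v2 (∏ i, u' i ^ (a i).val) = v2 (1 : Lˣ) := ha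
    obtain ⟨c, hc⟩ := v2_eq.1 h1
    rw [one_mul] at hc
    have h2 := hind (fun i => (a i).val) ⟨c, hc.symm⟩
    funext i
    have h3 := h2 i
    have h4 : (a i).val < 2 := ZMod.val_lt (a i)
    have h5 : (a i).val = 0 := by
      omega
    rw [ZMod.val_eq_zero] at h5
    exact h5
  have hinj : Function.Injective ψ := by
    intro a b hab
    have h1 : ψ (a - b) = 0 := by
      rw [hψ, hψ] at hab
      rw [hψ]
      simp only [Pi.sub_apply, sub_smul, Finset.sum_sub_distrib]
      rw [hab, sub_self]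
    exact sub_eq_zero.1 (hker _ h1)
  have hsub' : ψ '' Set.univ ⊆ XU T := by
    rintro _ ⟨a, -, rfl⟩
    refine ⟨∏ i, u' i ^ (a i).val, ?_, (hval a).symm⟩
    have h1 : ∏ i, u' i ^ (a i).val ∈ UT T :=
      Subgroup.prod_mem _ fun i _ => Subgroup.pow_mem _ (hu' i) _
    exact h1
  have hge : 2 ^ k' ≤ (XU T).ncard := by
    refine le_trans ?_ (Set.ncard_le_ncard hsub' hfin)
    rw [Set.ncard_image_of_injective _ hinj, Set.ncard_univ, hcard]
  exact ⟨k', hk', hfin, le_antisymm hle hge⟩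

end H48.AQ
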