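import Pool.Agent.H48.T3.TEx
import Pool.Agent.H48.AQ.Ps
import Pool.Agent.H48.AQ.Ts

/-!
# AQ: a set `T` for which the linear algebra applies (every number field)
-/

set_option autoImplicit false

open scoped NumberField Classical
open IsDedekindDomain H38.ML H63.MA

noncomputable section

namespace H48.AQ

open H48.KV H48.T3

variable {K : IntermediateField ℚ QBar} [NumberField K]

/-- `gv P` is in `IT` if `P` is over `T` -/
private theorem tex_gv (c : Cub K) (S T : Finset (Pl K)) (P : Pl c.F) (hP : OvS c T P) :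
    gv c S P ∈ IT c S T := by
  rw [mem_IT]
  refine ⟨gv_mem c S P, fun R hR => ?_⟩
  unfold gv
  rw [if_neg]
  rintro ⟨_, _, h⟩
  apply hR
  obtain ⟨l, hl, hPl⟩ := hP
  rcases h with rfl | rfl
  · exact ⟨l, hl, (tp_over c.τ P l).2 hPl⟩
  · exact ⟨l, hl, (tp_over c.τ _ l).2 ((tp_over c.τ P l).2 hPl)⟩

private theorem tex_v2sq {F : Type} [Field F] (b y s : Fˣ) : v2 (b * y ^ 2 * s) = v2 b + v2 s := by
  rw [v2_mul, v2_mul, sq, v2_mul, ← two_nsmul, v2_two, add_zero]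

/-- the generation of `VA` -/
private theorem tex_genA (c : Cub K) (S T : Finset (Pl K))
    (D : RN c.F) (hD : ∀ P, OvS c S P → P ∈ D.S0) (B : Finset c.Fˣ)
    (hB : ∀ x : c.Fˣ, ∃ b ∈ B, ∃ y s : c.Fˣ, PS 2 (-1 : c.F) D.S0 s ∧ x = b * y ^ 2 * s)
    (ab : c.Fˣ → c.Fˣ)
    (hab : ∀ b : c.Fˣ, (∃ a : c.Fˣ, IsSquare (Algebra.norm K (a : c.F)) ∧
      ∃ y s : c.Fˣ, PS 2 (-1 : c.F) D.S0 s ∧ a = b * y ^ 2 * s) →
      (IsSquare (Algebra.norm K ((ab b : c.Fˣ) : c.F)) ∧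
      ∃ y s : c.Fˣ, PS 2 (-1 : c.F) D.S0 s ∧ ab b = b * y ^ 2 * s))
    (hT : ∀ b ∈ B, ∀ P, ord P (ab b) ≠ 0 → OvS c T P) :
    VA c ≤ AT c S T ⊔ (VA c ⊓ VL c S) := by
  intro x hx
  obtain ⟨a, rfl⟩ := v2_surj x
  have ha := (mem_VA c a).1 hx
  obtain ⟨b, hb, y, s, hs, hays⟩ := hB a
  obtain ⟨hsq, y', s', hs', hab'⟩ := hab b ⟨a, ha, y, s, hs, hays⟩
  have h1 : v2 (ab b) ∈ VA c := (mem_VA c _).2 hsq
  have h2 : v2 (ab b) ∈ AT c S T := by
    rw [mem_AT]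
    refine ⟨h1, fun P hP => ?_⟩
    rw [oL_v2]
    unfold oF
    split_ifs
    · rfl
    · have h3 : ord P (ab b) = 0 := by
        by_contra h4
        exact hP (hT b hb P h4)
      rw [h3, Int.cast_zero]
  have h5 : v2 a - v2 (ab b) ∈ VL c S := by
    have h6 : v2 a - v2 (ab b) = v2 s - v2 s' := by
      rw [hays, hab', tex_v2sq, tex_v2sq, add_sub_add_left_eq_sub]
    rw [h6]
    exact Submodule.sub_mem _ ((mem_VL c S s).2 (ltr_ps c S D hD s hs))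
      ((mem_VL c S s').2 (ltr_ps c S D hD s' hs'))
  rw [Submodule.mem_sup]
  exact ⟨v2 (ab b), h2, v2 a - v2 (ab b), ⟨Submodule.sub_mem _ hx h1, h5⟩,
    add_sub_cancel _ _⟩

/-- the generation of `Ig` -/
private theorem tex_genI (c : Cub K) (S T : Finset (Pl K))
    (D : RN c.F) (hD : ∀ P, OvS c S P → P ∈ D.S0)
    (hT1 : ∀ P ∈ D.S0, OvS c T P)
    (hT2 : ∀ P, P ∉ D.S0 → ∃ R, R ∉ D.S0 ∧ OvS c T R ∧ D.q R = D.q P) :
    Ig c S ≤ IT c S T ⊔ (VA c ⊓ VL c S).map (oL c S) := by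
  intro g hg
  obtain ⟨f, _, rfl⟩ := gv_sum c S g hg
  refine Submodule.sum_mem _ fun P _ => ?_
  by_cases hP : OvS c T P
  · exact Submodule.mem_sup_left (tex_gv c S T P hP)
  · have hPS : P ∉ D.S0 := fun h => hP (hT1 P h)
    obtain ⟨R, hRS, hRT, hRq⟩ := hT2 P hPS
    have hne : P ≠ R := by
      rintro rfl
      exact hP hRT
    have hps := psf_cl D P R hPS hRS hRq.symm
    have hl := ltr_ps c S D hD _ hps
    obtain ⟨x, hx⟩ : ∃ x : c.Fˣ, x = D.pi P * D.pi R := ⟨_, rfl⟩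
    rw [← hx] at hl hps
    have hu1 : v2 (tu c.τ x * tu c.τ (tu c.τ x)) ∈ VA c := (mem_VA c _).2 (og_sq c x)
    have hu2 : v2 (tu c.τ x * tu c.τ (tu c.τ x)) ∈ VL c S := (mem_VL c S _).2
      (ltr_mul c S (ltr_tu c S x hl) (ltr_tu c S _ (ltr_tu c S x hl)))
    have hPn : P ∉ insert R D.S0 := by
      rw [Finset.mem_insert]
      rintro (h | h)
      · exact hne h
      · exact hPS h
    have hE : ∀ Q, Q ∉ insert P (insert R D.S0) → ord Q x = 0 := by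
      intro Q hQ
      rw [Finset.mem_insert, Finset.mem_insert, not_or, not_or] at hQ
      rw [hx, ord_mul, D.pi_ne P Q hPS hQ.2.2 hQ.1, D.pi_ne R Q hRS hQ.2.2 hQ.2.1, add_zero]
    have hsum := og_sum c S x _ hE
    rw [Finset.sum_insert hPn] at hsum
    have hP1 : ord P x = 1 := by
      rw [hx, ord_mul, D.pi_self P hPS, D.pi_ne R P hRS hPS hne, add_zero]
    rw [hP1, Int.cast_one, one_smul] at hsum
    have hgv : gv c S P = oL c S (v2 (tu c.τ x * tu c.τ (tu c.τ x))) -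
        ∑ Q ∈ insert R D.S0, (ord Q x : ZMod 2) • gv c S Q := by
      rw [oL_v2, hsum, add_sub_cancel_right]
    rw [hgv]
    refine Submodule.sub_mem _ (Submodule.mem_sup_right
      (Submodule.mem_map_of_mem ⟨hu1, hu2⟩)) (Submodule.mem_sup_left ?_)
    refine Submodule.sum_mem _ fun Q hQ => Submodule.smul_mem _ _ (tex_gv c S T Q ?_)
    rcases Finset.mem_insert.1 hQ with rfl | hQ
    · exact hRT
    · exact hT1 Q hQ

theorem tex (c : Cub K) (S : Finset (Pl K)) : ∃ T : Finset (Pl K), S ⊆ T ∧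
    ClOne T ∧ (∀ TF : Finset (Pl c.F), (∀ P, P ∈ TF ↔ OvS c T P) → ClOne TF) ∧
      LAH (oL c S) (VA c) (VA c ⊓ VL c S) (AT c S T) (Ig c S) (IT c S T) := by
  obtain ⟨T0, hT0, _, hrd⟩ := rnx c.F
  obtain ⟨TS, hTS, _⟩ := tov_card c S
  obtain ⟨S1, hS1⟩ : ∃ S1 : Finset (Pl c.F), S1 = T0 ∪ TS := ⟨_, rfl⟩
  have h01 : T0 ⊆ S1 := by
    rw [hS1]
    exact Finset.subset_union_left
  have hS1S : ∀ P, OvS c S P → P ∈ S1 := by
    intro P hP
    rw [hS1]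
    exact Finset.mem_union_right _ ((hTS P).2 hP)
  have hcl1 : ClOne S1 := clone_mono hT0 h01
  obtain ⟨D, hD⟩ := hrd S1 (fun v hv => h01 hv)
  obtain ⟨B, hB⟩ := psf D
  have hex : ∀ b : c.Fˣ, ∃ ab : c.Fˣ, (∃ a : c.Fˣ, IsSquare (Algebra.norm K (a : c.F)) ∧
      ∃ y s : c.Fˣ, PS 2 (-1 : c.F) D.S0 s ∧ a = b * y ^ 2 * s) →
      (IsSquare (Algebra.norm K (ab : c.F)) ∧
      ∃ y s : c.Fˣ, PS 2 (-1 : c.F) D.S0 s ∧ ab = b * y ^ 2 * s) := by
    intro b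
    by_cases h : ∃ a : c.Fˣ, IsSquare (Algebra.norm K (a : c.F)) ∧
      ∃ y s : c.Fˣ, PS 2 (-1 : c.F) D.S0 s ∧ a = b * y ^ 2 * s
    · obtain ⟨a, ha⟩ := h
      exact ⟨a, fun _ => ha⟩
    · exact ⟨1, fun h' => absurd h' h⟩
  choose ab hab using hex
  have hexE : ∀ κ : Fin D.r → ZMod 2, ∃ E : Finset (Pl c.F), ∀ P, P ∉ D.S0 → D.q P = κ →
      ∃ R ∈ E, R ∉ D.S0 ∧ D.q R = κ := by
    intro κ
    by_cases h : ∃ P, P ∉ D.S0 ∧ D.q P = κ
    · obtain ⟨R, hR⟩ := h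
      exact ⟨{R}, fun _ _ _ => ⟨R, Finset.mem_singleton_self R, hR⟩⟩
    · exact ⟨∅, fun P hP hq => absurd ⟨P, hP, hq⟩ h⟩
  choose E hE using hexE
  have hbex : ∀ P : Pl c.F, ∃ l : Pl K, Over P l := fun P => exists_below P
  choose bel hbel using hbex
  obtain ⟨TK, hTK⟩ := exists_clone K
  obtain ⟨Z, hZ⟩ : ∃ Z : Finset (Pl c.F), Z = S1 ∪ Finset.univ.biUnion E ∪
      B.biUnion (fun b => (finite_ord (ab b)).toFinset) := ⟨_, rfl⟩
  obtain ⟨T, hT⟩ : ∃ T : Finset (Pl K), T = S ∪ TK ∪ Z.image bel := ⟨_, rfl⟩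
  have hST : S ⊆ T := by
    rw [hT]
    exact Finset.subset_union_left.trans Finset.subset_union_left
  have hKT : ClOne T := by
    refine clone_mono hTK ?_
    rw [hT]
    exact Finset.subset_union_right.trans Finset.subset_union_left
  have hZT : ∀ P ∈ Z, OvS c T P := by
    intro P hP
    refine ⟨bel P, ?_, hbel P⟩
    rw [hT]
    exact Finset.mem_union_right _ (Finset.mem_image_of_mem _ hP)
  have hS1T : ∀ P ∈ S1, OvS c T P := by
    intro P hP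
    apply hZT
    rw [hZ]
    exact Finset.mem_union_left _ (Finset.mem_union_left _ hP)
  have hFT : ∀ TF : Finset (Pl c.F), (∀ P, P ∈ TF ↔ OvS c T P) → ClOne TF := by
    intro TF hTF
    exact clone_mono hcl1 fun P hP => (hTF P).2 (hS1T P hP)
  obtain ⟨TF, hTF, _⟩ := tov_card c T
  refine ⟨T, hST, hKT, hFT, ?_⟩
  refine ⟨inf_le_left, inf_le_left, inf_le_left, fun a ha => of_mem c S a ha, ?_, ?_, ?_, ?_, ?_⟩
  · intro a ha
    rw [mem_AT, mem_IT]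
    exact ⟨fun h => ⟨ha, h.2⟩, fun h => ⟨of_mem c S a ha, h.2⟩⟩
  · refine tex_genA c S T D (fun P hP => by rw [hD]; exact hS1S P hP) B hB ab hab ?_
    intro b hb P hP
    apply hZT
    rw [hZ]
    refine Finset.mem_union_right _ (Finset.mem_biUnion.2 ⟨b, hb, ?_⟩)
    rw [Set.Finite.mem_toFinset]
    exact hP
  · refine tex_genI c S T D (fun P hP => by rw [hD]; exact hS1S P hP) ?_ ?_
    · intro P hP
      rw [hD] at hP
      exact hS1T P hP
    · intro P hP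
      obtain ⟨R, hR, hRS, hRq⟩ := hE (D.q P) P hP rfl
      refine ⟨R, hRS, ?_, hRq⟩
      apply hZT
      rw [hZ]
      exact Finset.mem_union_left _ (Finset.mem_union_right _
        (Finset.mem_biUnion.2 ⟨D.q P, Finset.mem_univ _, hR⟩))
  · exact (tsp c S T hST hKT TF hTF (hFT TF hTF)).1
  · exact (tin c S T).1

end H48.AQ
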