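import Pool.Agent.H48.AQ.Ts
import Pool.Agent.H48.T3.TIn

/-!
# AQ: the ratio `#AT / #IT` (every number field): `4 ^ #(S.filter Spc) * 4 ^ #(infinite places of K)`
-/

set_option autoImplicit false

open scoped NumberField Classical
open IsDedekindDomain H38.ML H63.MA

noncomputable section

namespace H48.AQ

open H48.KV H48.T3

variable {K : IntermediateField ℚ QBar} [NumberField K]

/-- `c.F` has three infinite places over every infinite place of `K` -/
theorem card_inf (c : Cub K) : Fintype.card (NumberField.InfinitePlace c.F) =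
    Fintype.card (NumberField.InfinitePlace K) * 3 := by
  have h1 : IsUnramifiedAtInfinitePlaces K c.F := IsUnramifiedAtInfinitePlaces_of_odd_finrank
    (by rw [c.deg]; decide)
  rw [IsUnramifiedAtInfinitePlaces.card_infinitePlace K c.F, c.deg]

theorem tkp (c : Cub K) (S T : Finset (Pl K)) (hST : S ⊆ T) (hK : ClOne T)
    (TF : Finset (Pl c.F)) (hTF : ∀ P, P ∈ TF ↔ OvS c T P) (hF : ClOne TF) :
    Nat.card (AT c S T) =
      4 ^ (S.filter fun l => Spc c l).card * 4 ^ Fintype.card (NumberField.InfinitePlace K) *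
        Nat.card (IT c S T) := by
  obtain ⟨-, h1⟩ := tsp c S T hST hK TF hTF hF
  obtain ⟨k, hk, -, hkn⟩ := tu_card K T
  obtain ⟨k', hk', -, hkn'⟩ := tu_card c.F TF
  obtain ⟨TF', hTF', hcard⟩ := tov_card c T
  have hTT : TF = TF' := by
    ext P
    rw [hTF, hTF']
  have h2 := (tin c S T).2
  have hfr := card_inf c
  have hsp : (T.filter fun l => Spc c l).card =
      (S.filter fun l => Spc c l).card + (T.filter fun l => l ∉ S ∧ Spc c l).card := by
    rw [← Finset.card_union_of_disjoint]
    · congr 1
      ext l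
      simp only [Finset.mem_filter, Finset.mem_union]
      constructor
      · rintro ⟨h3, h4⟩
        by_cases h5 : l ∈ S
        · exact Or.inl ⟨h5, h4⟩
        · exact Or.inr ⟨h3, h5, h4⟩
      · rintro (⟨h3, h4⟩ | ⟨h3, -, h4⟩)
        · exact ⟨hST h3, h4⟩
        · exact ⟨h3, h4⟩
    · rw [Finset.disjoint_left]
      intro l h3 h4
      exact (Finset.mem_filter.1 h4).2.1 (Finset.mem_filter.1 h3).1
  rw [hTT, hcard, hfr, hsp] at hk'
  rw [hkn, hkn'] at h1
  have hkk : k' = (2 * (S.filter fun l => Spc c l).card + 2 * Fintype.card (NumberField.InfinitePlace K) +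
      2 * (T.filter fun l => l ∉ S ∧ Spc c l).card) + k := by omega
  rw [hkk, pow_add] at h1
  have h3 := Nat.eq_of_mul_eq_mul_right (pow_pos (by norm_num) k) h1
  rw [h3, h2, pow_add, pow_add, pow_mul, pow_mul, pow_mul]
  norm_num

end H48.AQ
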