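import Pool.Agent.H48.AQ.Ty
import Pool.Agent.H48.AQ.Tb

/-!
# AQ: finitely many values of the local invariant; the number of local types is bounded (every number field)
-/

set_option autoImplicit false

open scoped NumberField Classical
open IsDedekindDomain H38.ML H63.MA

noncomputable section

namespace H48.AQ

open H48.KV H48.T3

variable {K : IntermediateField ℚ QBar} [NumberField K]

variable {G : Type} [Group G] {k : KV G}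

private theorem tyc_fin (k : KV G) (hk : ∀ g, k.pi g = 1 → g ∈ k.V) (Q : DP K QBar)
    (S : Finset (Pl K)) (ds : (Gal(QBar/K) →* G) → ℕ) (hds : LocInv Q S ds)
    (χ : Gal(QBar/K) →* Multiplicative (ZMod 3)) (hχ : χ ∈ Ch K) :
    ∃ D : Finset ℕ, ∀ φ ∈ SL k χ, ds φ ∈ D := by
  obtain ⟨c, hc⟩ := cub_ex χ hχ
  obtain ⟨s, γ, H⟩ := std_ex hk χ hχ c hc
  obtain ⟨cl, hcl⟩ := cl_ex H
  have h1 := (nty_all H hcl S Q).2
  unfold nty at h1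
  have h2 := Nat.finite_of_card_ne_zero h1.ne'
  obtain ⟨F, hF⟩ : ∃ F : (Quot fun φ φ' : {φ : Gal(QBar/K) →* G // φ ∈ SL k χ ∧ True} =>
      Lq k S Q φ.1 φ'.1) → ℕ, ∀ φ : {φ : Gal(QBar/K) →* G // φ ∈ SL k χ ∧ True}, F (Quot.mk _ φ) = ds φ.1 := by
    refine ⟨Quot.lift (fun φ => ds φ.1) ?_, fun φ => rfl⟩
    intro φ φ' h
    refine hds φ.1 φ'.1 φ.2.1.2.1 φ.2.1.1 φ'.2.1.2.1 φ'.2.1.1 fun v hv => ?_
    obtain ⟨δ, -, h3⟩ := h v hv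
    exact ⟨δ, h3⟩
  have h3 : (Set.range F).Finite := Set.finite_range F
  refine ⟨h3.toFinset, fun φ hφ => ?_⟩
  rw [Set.Finite.mem_toFinset]
  exact ⟨Quot.mk _ ⟨φ, hφ, trivial⟩, hF _⟩

theorem ds_fin (k : KV G)
    (hk : ∀ g, k.pi g = 1 → g ∈ k.V) (Q : DP K QBar) (S : Finset (Pl K))
    (ds : (Gal(QBar/K) →* G) → ℕ) (hds : LocInv Q S ds) :
    ∃ Df : Finset ℕ, ∀ φ : Gal(QBar/K) →* G, FT φ → Function.Surjective φ → ds φ ∈ Df := by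
  obtain ⟨Xf, hX, hT⟩ := ty_fin Q S
  have h1 : ∀ χ : Gal(QBar/K) →* Multiplicative (ZMod 3), ∃ D : Finset ℕ, χ ∈ Ch K →
      ∀ φ ∈ SL k χ, ds φ ∈ D := by
    intro χ
    by_cases h : χ ∈ Ch K
    · obtain ⟨D, hD⟩ := tyc_fin k hk Q S ds hds χ h
      exact ⟨D, fun _ => hD⟩
    · exact ⟨∅, fun h' => absurd h' h⟩
  choose D hD using h1
  refine ⟨Xf.biUnion D, fun φ hft hsu => ?_⟩
  have hχ : k.pi.comp φ ∈ Ch K := ⟨H38.ML.ft_comp _ _ hft, by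
    rw [MonoidHom.coe_comp]
    exact k.sj.comp hsu⟩
  obtain ⟨χ', hχ', hTe⟩ := hT _ hχ
  obtain ⟨φ', h2, h3, h4, h5⟩ := apx k hk Q S _ χ' hχ (hX χ' hχ') hTe φ hft rfl
  have h6 : ds φ = ds φ' := hds φ φ' hsu hft h3 h2 fun v hv => by
    obtain ⟨δ, -, h7⟩ := h5 v hv
    exact ⟨δ, h7⟩
  rw [h6]
  exact Finset.mem_biUnion.2 ⟨χ', hχ', hD χ' (hX χ' hχ') φ' ⟨h2, h3, h4⟩⟩

theorem nty_bd (k : KV G)
    (hk : ∀ g, k.pi g = 1 → g ∈ k.V) (Q : DP K QBar) (S : Finset (Pl K)) :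
    ∃ C : ℕ, ∀ χ ∈ Ch K, nty k S Q χ (fun _ => True) ≤ C := by
  obtain ⟨Xf, hX, hT⟩ := ty_fin Q S
  refine ⟨Xf.sup fun χ' => nty k S Q χ' fun _ => True, fun χ hχ => ?_⟩
  obtain ⟨χ', hχ', hTe⟩ := hT χ hχ
  rw [nty_inv k hk Q S χ χ' hχ (hX χ' hχ') hTe (fun _ => True) fun _ _ _ _ _ _ _ => Iff.rfl]
  exact Finset.le_sup (f := fun χ' => nty k S Q χ' fun _ => True) hχ'

end H48.AQ
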