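import Pool.Agent.H48.T3.FBf
import Pool.Agent.H48.AQ.Fa
import Pool.Agent.H48.AQ.Tc

/-!
# AQ: the fibre formula `fb` for every number field `K` (no root of unity)
-/

set_option autoImplicit false

open scoped NumberField Classical
open IsDedekindDomain H38.ML H63.MA

noncomputable section

namespace H48.AQ

open H48.KV H48.T3

variable {K : IntermediateField ℚ QBar} [NumberField K]

variable {G : Type} [Group G]

theorem fb (k : KV G)
    (hk : ∀ g, k.pi g = 1 → g ∈ k.V) (S : Finset (Pl K)) (h2 : ∀ v : Pl K, Above 2 v → v ∈ S)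
    (Q : DP K QBar) (ds : (Gal(QBar/K) →* G) → ℕ) (hds : LocInv Q S ds) :
    (∃ Df : Finset ℕ, ∀ φ : Gal(QBar/K) →* G, FT φ → Function.Surjective φ → ds φ ∈ Df) ∧
    ∃ C : ℝ, 0 < C ∧ ∀ d : ℕ, ∃ W : (Gal(QBar/K) →* Multiplicative (ZMod 3)) → ℝ,
      (∀ χ, 0 ≤ W χ ∧ W χ ≤ C) ∧
      (∀ χ ∈ H38.MT.Ch K, ∀ χ' ∈ H38.MT.Ch K, Teq S Q χ χ' → W χ = W χ') ∧
      ∀ χ ∈ H38.MT.Ch K, ∃ Z : Finset (H57.LI.AP K QBar (mS S)), (∀ x ∈ Z, x.F = FX χ) ∧
        (Z.card : ℝ) ≤ C * selg (FX χ) ∧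
        ∀ Y : ℝ, 1 ≤ Y → (Fib k Q S ds χ d Y).Finite ∧
          |((Fib k Q S ds χ d Y).ncard : ℝ) - W χ * H38.MT.mq Q S χ Y| ≤
            C + C * ∑ x ∈ Z, |∑ q ∈ IN K Y, x.lq q| := by
  refine ⟨ds_fin k hk Q S ds hds, ?_⟩
  obtain ⟨C₁, hC₁⟩ := nty_bd k hk Q S
  have hloc : ∀ d : ℕ, ∀ φ φ' : Gal(QBar/K) →* G, FT φ → Function.Surjective φ → FT φ' →
      Function.Surjective φ' → Lq k S Q φ φ' → (ds φ = d ↔ ds φ' = d) := by
    intro d φ φ' h1 h2 h3 h4 h5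
    rw [hds φ φ' h2 h1 h4 h3 fun v hv => by
      obtain ⟨δ, -, hδ⟩ := h5 v hv
      exact ⟨δ, hδ⟩]
  have hle : ∀ χ ∈ Ch K, ∀ d : ℕ, nty k S Q χ (fun φ => ds φ = d) ≤ nty k S Q χ (fun _ => True) := by
    intro χ hχ d
    obtain ⟨c, hc⟩ := cub_ex χ hχ
    obtain ⟨s, γ, H⟩ := std_ex hk χ hχ c hc
    obtain ⟨cl, hcl⟩ := cl_ex H
    exact nty_le H hcl S Q _ (hloc d)
  have hpos : ∀ χ ∈ Ch K, 0 < nty k S Q χ (fun _ => True) := by
    intro χ hχ
    obtain ⟨c, hc⟩ := cub_ex χ hχ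
    obtain ⟨s, γ, H⟩ := std_ex hk χ hχ c hc
    obtain ⟨cl, hcl⟩ := cl_ex H
    exact (nty_all H hcl S Q).2
  obtain ⟨C, hC⟩ : ∃ C : ℝ, C = 4 * (4 ^ S.card * 4 ^ Fintype.card (NumberField.InfinitePlace K)) + 8 ^ S.card * C₁ + 4 := ⟨_, rfl⟩
  have hC4 : 4 ≤ C := by
    rw [hC]
    have : (0 : ℝ) ≤ 4 * (4 ^ S.card * 4 ^ Fintype.card (NumberField.InfinitePlace K)) + 8 ^ S.card * C₁ := by positivity
    linarith
  have hCW : 4 * (4 ^ S.card * 4 ^ Fintype.card (NumberField.InfinitePlace K)) ≤ C := by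
    rw [hC]
    have : (0 : ℝ) ≤ 8 ^ S.card * C₁ := by positivity
    linarith
  have hCZ : 8 ^ S.card * (C₁ : ℝ) ≤ C := by
    rw [hC]
    have : (0 : ℝ) ≤ 4 * (4 ^ S.card * 4 ^ Fintype.card (NumberField.InfinitePlace K)) := by positivity
    linarith
  refine ⟨C, by linarith, fun d => ?_⟩
  obtain ⟨W, hW⟩ : ∃ W : (Gal(QBar/K) →* Multiplicative (ZMod 3)) → ℝ, W = fun χ =>
      if χ ∈ Ch K then 4 * ((4 : ℝ) ^ (S.filter fun l => H38.MT.Spt Q χ l).card * 4 ^ Fintype.card (NumberField.InfinitePlace K)) *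
        (nty k S Q χ (fun φ => ds φ = d) : ℝ) / (nty k S Q χ (fun _ => True) : ℝ) else 0 := ⟨_, rfl⟩
  have hW1 : ∀ χ ∈ Ch K, W χ = 4 * ((4 : ℝ) ^ (S.filter fun l => H38.MT.Spt Q χ l).card * 4 ^ Fintype.card (NumberField.InfinitePlace K)) *
        (nty k S Q χ (fun φ => ds φ = d) : ℝ) / (nty k S Q χ (fun _ => True) : ℝ) := by
    intro χ hχ
    rw [hW]
    exact if_pos hχ
  have hW0 : ∀ χ, 0 ≤ W χ ∧ W χ ≤ C := by
    intro χ
    by_cases hχ : χ ∈ Ch K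
    · rw [hW1 χ hχ]
      have h1 : (0 : ℝ) < nty k S Q χ (fun _ => True) := by exact_mod_cast hpos χ hχ
      have h2' : (nty k S Q χ (fun φ => ds φ = d) : ℝ) ≤ nty k S Q χ (fun _ => True) := by
        exact_mod_cast hle χ hχ d
      have h3 : (4 : ℝ) ^ (S.filter fun l => H38.MT.Spt Q χ l).card ≤ 4 ^ S.card :=
        pow_le_pow_right₀ (by norm_num) (Finset.card_filter_le _ _)
      refine ⟨by positivity, ?_⟩
      rw [div_le_iff₀ h1]
      have h4 : 4 * ((4 : ℝ) ^ (S.filter fun l => H38.MT.Spt Q χ l).card * 4 ^ Fintype.card (NumberField.InfinitePlace K)) ≤ C := by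
        refine le_trans ?_ hCW
        gcongr
      exact mul_le_mul h4 h2' (Nat.cast_nonneg _) (by linarith)
    · have h1 : W χ = 0 := by
        rw [hW]
        exact if_neg hχ
      rw [h1]
      exact ⟨le_rfl, by linarith⟩
  refine ⟨W, hW0, ?_, ?_⟩
  · intro χ hχ χ' hχ' hT
    rw [hW1 χ hχ, hW1 χ' hχ', nty_inv k hk Q S χ χ' hχ hχ' hT _ (hloc d),
      nty_inv k hk Q S χ χ' hχ hχ' hT (fun _ => True) fun _ _ _ _ _ _ _ => Iff.rfl]
    have h1 : (S.filter fun l => H38.MT.Spt Q χ l) = S.filter fun l => H38.MT.Spt Q χ' l := by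
      refine Finset.filter_congr fun v hv => ?_
      exact forall₂_congr fun σ hσ => by rw [hT v hv σ hσ]
    rw [h1]
  · intro χ hχ
    obtain ⟨c, hc⟩ := cub_ex χ hχ
    obtain ⟨s, γ, H⟩ := std_ex hk χ hχ c hc
    obtain ⟨Θ, hΘ, hΘc, hmain⟩ := fib_one H S h2 Q ds hds d
    obtain ⟨z, hz, hzF, hzs⟩ := ap_of c S h2
    have hspc : (S.filter fun l => Spc c l) = S.filter fun l => H38.MT.Spt Q χ l :=
      Finset.filter_congr fun v _ => spi χ hχ c hc Q v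
    rw [hspc] at hΘc hmain
    have h1 : (0 : ℝ) < nty k S Q χ (fun _ => True) := by exact_mod_cast hpos χ hχ
    have hinj : Function.Injective fun θ : Θ => z ⟨θ.1, hΘ θ.1 θ.2⟩ := by
      intro θ θ' h
      have h3 := congrArg Subtype.val (hz h)
      exact Subtype.ext h3
    refine ⟨Θ.attach.image fun θ => z ⟨θ.1, hΘ θ.1 θ.2⟩, ?_, ?_, ?_⟩
    · intro x hx
      obtain ⟨θ, -, rfl⟩ := Finset.mem_image.1 hx
      rw [hzF, hc]
    · rw [Finset.card_image_of_injective _ hinj, Finset.card_attach, ← hc, selg_fd]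
      have h3 : Θ.card ≤ 8 ^ S.card * selc K c.F * C₁ := by
        have h4 : 1 ≤ 4 ^ (S.filter fun l => H38.MT.Spt Q χ l).card * 4 ^ Fintype.card (NumberField.InfinitePlace K) :=
          Nat.one_le_iff_ne_zero.2 (by positivity)
        calc Θ.card ≤ (Θ.card + 1) * (4 ^ (S.filter fun l => H38.MT.Spt Q χ l).card *
              4 ^ Fintype.card (NumberField.InfinitePlace K)) := by nlinarith
          _ ≤ 8 ^ S.card * selc K c.F * nty k S Q χ (fun _ => True) := hΘc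
          _ ≤ 8 ^ S.card * selc K c.F * C₁ := Nat.mul_le_mul_left _ (hC₁ χ hχ)
      have h4 : (Θ.card : ℝ) ≤ 8 ^ S.card * C₁ * selc K c.F := by
        have h5 : (Θ.card : ℝ) ≤ ((8 ^ S.card * selc K c.F * C₁ : ℕ) : ℝ) := by exact_mod_cast h3
        refine h5.trans (le_of_eq ?_)
        push_cast
        ring
      exact h4.trans (mul_le_mul_of_nonneg_right hCZ (Nat.cast_nonneg _))
    · intro Y hY
      obtain ⟨hfin, hin⟩ := hmain Y hY
      refine ⟨hfin, ?_⟩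
      rw [Finset.sum_image fun θ _ θ' _ h => hinj h]
      have h4 : ∑ θ ∈ Θ.attach, |∑ q ∈ IN K Y, (z ⟨θ.1, hΘ θ.1 θ.2⟩).lq q| =
          ∑ θ ∈ Θ, |∑ f ∈ (AF c.F Y).filter (fun f => AdmC c S f), ∏ P ∈ f, sg (θ P)| := by
        rw [← Finset.sum_attach Θ]
        refine Finset.sum_congr rfl fun θ _ => ?_
        rw [hzs ⟨θ.1, hΘ θ.1 θ.2⟩ Y (by linarith)]
      rw [h4]
      obtain ⟨Sg, hSg⟩ : ∃ Sg, Sg = ∑ θ ∈ Θ, |∑ f ∈ (AF c.F Y).filter (fun f => AdmC c S f),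
        ∏ P ∈ f, sg (θ P)| := ⟨_, rfl⟩
      have hSg0 : 0 ≤ Sg := by
        rw [hSg]
        exact Finset.sum_nonneg fun _ _ => abs_nonneg _
      rw [mq_adm χ hχ c hc Q S Y, ← hSg] at hin
      rw [← hSg]
      obtain ⟨hWn, hWC⟩ := hW0 χ
      have h5 : ((Fib k Q S ds χ d Y).ncard : ℝ) - W χ * H38.MT.mq Q S χ Y =
          (((Fib k Q S ds χ d Y).ncard : ℝ) * nty k S Q χ (fun _ => True) -
            4 * (4 ^ (S.filter fun l => H38.MT.Spt Q χ l).card * 4 ^ Fintype.card (NumberField.InfinitePlace K)) *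
              nty k S Q χ (fun φ => ds φ = d) * H38.MT.mq Q S χ Y) / nty k S Q χ (fun _ => True) := by
        rw [hW1 χ hχ]
        field_simp
      have h6 : (4 * (nty k S Q χ (fun _ => True) : ℝ) +
            4 * (4 ^ (S.filter fun l => H38.MT.Spt Q χ l).card * 4 ^ Fintype.card (NumberField.InfinitePlace K)) *
              nty k S Q χ (fun φ => ds φ = d) * Sg) / nty k S Q χ (fun _ => True) = 4 + W χ * Sg := by
        rw [hW1 χ hχ]
        field_simp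
      rw [h5, abs_div, abs_of_pos h1]
      refine ((div_le_div_iff_of_pos_right h1).2 hin).trans ?_
      rw [h6]
      exact add_le_add hC4 (mul_le_mul_of_nonneg_right hWC hSg0)

end H48.AQ
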