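import Pool.Agent.H48.T3.UbN
import Pool.Agent.H48.AQ.K0

/-!
# AQ: upper bound for the lifts of one `χ` (every number field)
-/

set_option autoImplicit false

open scoped NumberField Classical
open IsDedekindDomain H38.ML H63.MA

noncomputable section

namespace H48.AQ

open H48.KV H48.T3

variable {K : IntermediateField ℚ QBar} [NumberField K]

private theorem k1_rel (K : IntermediateField ℚ QBar) [NumberField K] (F : IntermediateField K QBar)
    [NumberField F] : Equivalence fun a b : {a : Fˣ // H38.WM.Sel K F a} => ∃ c : Fˣ, a.1 = b.1 * c ^ 2 := by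
  refine ⟨fun a => ⟨1, by rw [one_pow, mul_one]⟩, ?_, ?_⟩
  · rintro a b ⟨c, hc⟩
    refine ⟨c⁻¹, ?_⟩
    rw [hc, mul_assoc, ← mul_pow, mul_inv_cancel, one_pow, mul_one]
  · rintro a b c ⟨x, hx⟩ ⟨y, hy⟩
    refine ⟨y * x, ?_⟩
    rw [hx, hy, mul_assoc, mul_pow]

theorem k1_card (c : Cub K) (S : Finset (Pl K)) :
    Finite ↥(VA c ⊓ LinearMap.ker (oL c S)) ∧
      Nat.card ↥(VA c ⊓ LinearMap.ker (oL c S)) ≤ 8 ^ S.card * selc K c.F := by
  obtain ⟨e, he⟩ := H38.WM.lab c.F c.deg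
  have hex : ∀ x : ↥(VA c ⊓ LinearMap.ker (oL c S)), ∃ a : c.Fˣ, v2 a = x.1 := fun x => v2_surj x.1
  choose a ha using hex
  have hev : ∀ x (P : Pl c.F), ¬ OvS c S P → Even (ord P (a x)) := by
    intro x P hP
    have h1 : oL c S (v2 (a x)) = 0 := by
      rw [ha x]
      exact x.2.2
    have h2 : oF c S (a x) P = 0 := by
      rw [← oL_v2, h1, Pi.zero_apply]
    have h3 : oF c S (a x) P = ((ord P (a x) : ℤ) : ZMod 2) := if_neg hP
    rw [h3, ZMod.intCast_zmod_eq_zero_iff_dvd] at h2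
    rw [even_iff_two_dvd]
    exact_mod_cast h2
  have hnm : ∀ x, IsSquare (Algebra.norm K ((a x : c.Fˣ) : c.F)) := by
    intro x
    rw [← mem_VA, ha x]
    exact x.2.1
  -- the parities over `S`
  let ρ : ↥(VA c ⊓ LinearMap.ker (oL c S)) → (S → Fin 3 → ZMod 2) := fun x l i =>
    if hl : ∃ P : Pl c.F, Over P l.1 ∧ e P = i then ((ord hl.choose (a x) : ℤ) : ZMod 2) else 0
  have hρ : ∀ x (P : Pl c.F) (l : S), Over P l.1 → ρ x l (e P) = ((ord P (a x) : ℤ) : ZMod 2) := by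
    intro x P l hP
    have hl : ∃ P' : Pl c.F, Over P' l.1 ∧ e P' = e P := ⟨P, hP, rfl⟩
    have h3 : hl.choose = P := he _ _ l.1 hl.choose_spec.1 hP hl.choose_spec.2
    change (if hl : ∃ P' : Pl c.F, Over P' l.1 ∧ e P' = e P then ((ord hl.choose (a x) : ℤ) : ZMod 2) else 0) = _
    rw [dif_pos hl, h3]
  have hpar : ∀ x x', ρ x = ρ x' → ∀ P : Pl c.F, Even (ord P (a x * (a x')⁻¹)) := by
    intro x x' hh P
    obtain ⟨l, hl⟩ := exists_below (K := K) P
    rw [ord_mul, ord_inv]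
    by_cases hlS : OvS c S P
    · obtain ⟨l, hlS, hl⟩ := hlS
      have h3 := hρ x P ⟨l, hlS⟩ hl
      have h4 := hρ x' P ⟨l, hlS⟩ hl
      rw [hh, h4] at h3
      have h5 : ((ord P (a x) - ord P (a x') : ℤ) : ZMod 2) = 0 := by
        rw [Int.cast_sub, h3, sub_self]
      rw [ZMod.intCast_zmod_eq_zero_iff_dvd] at h5
      rw [← sub_eq_add_neg, even_iff_two_dvd]
      exact_mod_cast h5
    · exact (hev x P hlS).add (hev x' P hlS).neg
  by_cases hne : Nonempty ↥(VA c ⊓ LinearMap.ker (oL c S))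
  swap
  · exact absurd ⟨0⟩ hne
  let β : ↥(VA c ⊓ LinearMap.ker (oL c S)) → ↥(VA c ⊓ LinearMap.ker (oL c S)) :=
    fun x => Function.invFun ρ (ρ x)
  have hβ : ∀ x, ρ (β x) = ρ x := fun x => Function.invFun_eq ⟨x, rfl⟩
  have hβ' : ∀ x x', ρ x = ρ x' → β x = β x' := fun x x' hh => congrArg (Function.invFun ρ) hh
  have hsel : ∀ x, H38.WM.Sel K c.F (a x * (a (β x))⁻¹) := by
    intro x
    refine ⟨?_, hpar x (β x) (hβ x).symm⟩
    have hn : Algebra.norm K (((a (β x))⁻¹ : c.Fˣ) : c.F) = (Algebra.norm K ((a (β x) : c.Fˣ) : c.F))⁻¹ := by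
      refine eq_inv_of_mul_eq_one_left ?_
      rw [← map_mul, ← Units.val_mul, inv_mul_cancel, Units.val_one, map_one]
    rw [Units.val_mul, map_mul, hn]
    exact (hnm x).mul (hnm (β x)).inv
  let κ : ↥(VA c ⊓ LinearMap.ker (oL c S)) →
      Quot fun a b : {a : c.Fˣ // H38.WM.Sel K c.F a} => ∃ d : c.Fˣ, a.1 = b.1 * d ^ 2 :=
    fun x => Quot.mk _ ⟨a x * (a (β x))⁻¹, hsel x⟩
  have hκ : ∀ x x', ρ x = ρ x' → κ x = κ x' → ∃ d : c.Fˣ, a x = a x' * d ^ 2 := by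
    intro x x' hh hk
    have h3 := Quot.eqvGen_exact hk
    rw [(k1_rel K c.F).eqvGen_iff] at h3
    obtain ⟨d, hd⟩ := h3
    have hd' : a x * (a (β x))⁻¹ = a x' * (a (β x'))⁻¹ * d ^ 2 := hd
    refine ⟨d, ?_⟩
    rw [hβ' x x' hh] at hd'
    have h4 : a x = (a x * (a (β x'))⁻¹) * a (β x') := (inv_mul_cancel_right _ _).symm
    rw [h4, hd', mul_right_comm, mul_assoc (a x'), inv_mul_cancel, mul_one]
  have hinj : Function.Injective fun x => (ρ x, κ x) := by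
    intro x x' hh
    have h3 : ρ x = ρ x' := congrArg Prod.fst hh
    have h4 : κ x = κ x' := congrArg Prod.snd hh
    have h5 := hκ x x' h3 h4
    rw [← v2_eq, ha x, ha x'] at h5
    exact Subtype.ext h5
  have hfin1 := sel_fin K c.F
  have h6 := Nat.card_le_card_of_injective _ hinj
  rw [Nat.card_prod, Nat.card_fun, Nat.card_fun, Nat.card_zmod, Nat.card_fin,
    Nat.card_eq_fintype_card (α := S), Fintype.card_coe] at h6
  have h7 : (2 : ℕ) ^ 3 = 8 := by norm_num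
  rw [h7] at h6
  exact ⟨Finite.of_injective _ hinj, h6⟩

variable {G : Type} [Group G] {k : KV G}

private theorem ubn_fib {R M N : Type*} [Ring R] [AddCommGroup M] [AddCommGroup N] [Module R M]
    [Module R N] (f : M →ₗ[R] N) (W : Submodule R M) (hf : Finite ↥(W ⊓ LinearMap.ker f)) (g : N) :
    {x | x ∈ W ∧ f x = g}.Finite ∧ {x | x ∈ W ∧ f x = g}.ncard ≤ Nat.card ↥(W ⊓ LinearMap.ker f) := by
  have hU : ((W ⊓ LinearMap.ker f : Submodule R M) : Set M).Finite := hf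
  rcases Set.eq_empty_or_nonempty {x | x ∈ W ∧ f x = g} with h | ⟨x0, hx0, hg0⟩
  · rw [h]
    exact ⟨Set.finite_empty, by simp⟩
  · have hsub : {x | x ∈ W ∧ f x = g} ⊆
        (fun u => x0 + u) '' ((W ⊓ LinearMap.ker f : Submodule R M) : Set M) := by
      rintro x ⟨hx, hgx⟩
      refine ⟨x - x0, ⟨W.sub_mem hx hx0, ?_⟩, add_sub_cancel _ _⟩
      show x - x0 ∈ LinearMap.ker f
      rw [LinearMap.mem_ker, map_sub, hgx, hg0, sub_self]
    refine ⟨(hU.image _).subset hsub, ?_⟩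
    refine (Set.ncard_le_ncard hsub (hU.image _)).trans ?_
    refine (Set.ncard_image_le hU).trans ?_
    exact le_of_eq rfl

theorem ub_new {χ : Gal(QBar/K) →* Multiplicative (ZMod 3)} {c : Cub K}
    {s : Multiplicative (ZMod 3) →* G} {γ : Gal(QBar/K)} (H : Std k χ c s γ)
    (S : Finset (Pl K)) (h2 : ∀ v : Pl K, Above 2 v → v ∈ S) (Q : DP K QBar)
    (ds : (Gal(QBar/K) →* G) → ℕ) (d : ℕ) (Y : ℝ) :
    (Fib k Q S ds χ d Y).Finite ∧ ((Fib k Q S ds χ d Y).ncard : ℝ) ≤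
      4 * (8 ^ S.card * selc K c.F) * ∑ q ∈ AF K Y, (3 : ℝ) ^ q.card := by
  obtain ⟨cl, hcl⟩ := cl_ex H
  obtain ⟨Gs, hG1, hG2⟩ := gi_sum c S Y
  obtain ⟨hfin, hcard⟩ := k1_card c S
  set U := VA c ⊓ LinearMap.ker (oL c S) with hU
  set X : Set (V2 c.F) := {x | x ∈ VA c ∧ oL c S x ∈ Gs} with hX
  have hXU : X ⊆ ⋃ g ∈ Gs, {x | x ∈ VA c ∧ oL c S x = g} := by
    rintro x ⟨hx, hx2⟩
    simp only [Set.mem_iUnion]
    exact ⟨_, hx2, hx, rfl⟩
  have hXf' : (⋃ g ∈ Gs, {x | x ∈ VA c ∧ oL c S x = g}).Finite :=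
    Set.Finite.biUnion Gs.finite_toSet fun g _ => (ubn_fib (oL c S) (VA c) hfin g).1
  have hXf : X.Finite := hXf'.subset hXU
  have hXc : X.ncard ≤ Gs.card * (8 ^ S.card * selc K c.F) := by
    refine (Set.ncard_le_ncard hXU hXf').trans ?_
    refine (Finset.set_ncard_biUnion_le Gs _).trans ?_
    refine (Finset.sum_le_card_nsmul Gs _ (8 ^ S.card * selc K c.F) fun g _ => ?_).trans ?_
    · exact (ubn_fib (oL c S) (VA c) hfin g).2.trans hcard
    · rw [smul_eq_mul]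
  obtain ⟨hLf, hLc⟩ := cl_cnt H hcl X (fun x hx => hx.1) hXf
  have hsub : Fib k Q S ds χ d Y ⊆ {φ | φ ∈ LW k χ ∧ cl φ ∈ X} := by
    rintro φ ⟨h1, h3, h4, h5, h6⟩
    have hL : φ ∈ LW k χ := ⟨h1, h4⟩
    refine ⟨hL, hcl.va φ hL, ?_⟩
    rw [hG1]
    exact ⟨of_mem c S _ (hcl.va φ hL), (cl_nr H hcl S h2 Q φ hL Y).1 h6⟩
  refine ⟨hLf.subset hsub, ?_⟩
  have h1 : (Fib k Q S ds χ d Y).ncard ≤ 4 * (Gs.card * (8 ^ S.card * selc K c.F)) := by
    refine (Set.ncard_le_ncard hsub hLf).trans ?_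
    rw [hLc]
    exact Nat.mul_le_mul_left 4 hXc
  have h3 : (Gs.card : ℝ) ≤ ∑ q ∈ AF K Y, (3 : ℝ) ^ q.card := by
    have e1 := hG2 0
    have e2 := apa c S (fun _ => (1 : ℝ)) Y
    have e3 : (Gs.card : ℝ) = ∑ q ∈ AF K Y, ∏ l ∈ q,
        (if l ∉ S ∧ Spc c l then ∑ᶠ P ∈ {P : Pl c.F | Over P l}, (1 : ℝ) else 0) := by
      rw [← e2]
      have e4 : ∀ x : Pl c.F → ZMod 2, sg ((0 : (Pl c.F → ZMod 2) →ₗ[ZMod 2] ZMod 2) x) = 1 := by
        intro x
        rw [LinearMap.zero_apply]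
        unfold sg
        rw [if_pos rfl]
      simp only [e4] at e1
      rw [← e1]
      simp
    rw [e3]
    refine Finset.sum_le_sum fun q _ => ?_
    rw [← Finset.prod_const]
    refine Finset.prod_le_prod (fun l _ => ?_) fun l _ => ?_
    · split_ifs
      · exact finsum_nonneg fun P => finsum_nonneg fun _ => zero_le_one
      · exact le_rfl
    · split_ifs
      · obtain ⟨f, hf1, hf2⟩ := ov_card c l
        have h4 : {P : Pl c.F | Over P l} = (f : Set (Pl c.F)) := by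
          ext P
          exact (hf1 P).symm
        rw [h4, finsum_mem_coe_finset, Finset.sum_const, nsmul_eq_mul, mul_one]
        rcases hf2 with ⟨_, h5, _⟩ | ⟨_, h5, _⟩
        · rw [h5]
          norm_num
        · rw [h5]
          norm_num
      · norm_num
  have h4 : ((Fib k Q S ds χ d Y).ncard : ℝ) ≤ 4 * ((Gs.card : ℝ) * (8 ^ S.card * selc K c.F)) := by
    exact_mod_cast h1
  calc ((Fib k Q S ds χ d Y).ncard : ℝ) ≤ 4 * ((Gs.card : ℝ) * (8 ^ S.card * selc K c.F)) := h4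
    _ = 4 * (8 ^ S.card * selc K c.F) * Gs.card := by ring
    _ ≤ _ := mul_le_mul_of_nonneg_left h3 (by positivity)

end H48.AQ
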