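import Pool.Agent.H48.T3.TyC
import Pool.Agent.H38.WM.Om2

/-!
# AQ: finitely many local types of characters of order 3 at `S`, for every number field

If `K` has no primitive cube root of unity let `M = K(ω)`. A character of order 3 of `Gal(QBar/K)` is determined on the decomposition group of a prime `𝔓`
of `QBar` by its restriction to the decomposition group of `𝔓` in `Gal(QBar/M)`, because `σ ^ 2` is in `Gal(QBar/M)` for `σ ∈ Gal(QBar/K)`.
-/

set_option autoImplicit false

open scoped NumberField Classical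
open IsDedekindDomain H38.ML H63.MA

noncomputable section

namespace H48.AQ

open H48.KV H48.T3

variable {K : IntermediateField ℚ QBar} [NumberField K]

/-- the restriction of a character to `Gal(QBar/M)` -/
def rsM (M : IntermediateField K QBar) (χ : Gal(QBar/K) →* Multiplicative (ZMod 3)) :
    Gal(QBar/M) →* Multiplicative (ZMod 3) :=
  ⟨⟨fun σ => χ (σ.restrictScalars K), by
    have h1 : (1 : Gal(QBar/M)).restrictScalars K = 1 := rfl
    rw [h1, map_one]⟩, fun σ τ => by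
    have h1 : (σ * τ).restrictScalars K = σ.restrictScalars K * τ.restrictScalars K := rfl
    show χ ((σ * τ).restrictScalars K) = _
    rw [h1, map_mul]⟩

omit [NumberField K] in
theorem rsM_ft (M : IntermediateField K QBar) [FiniteDimensional K M]
    (χ : Gal(QBar/K) →* Multiplicative (ZMod 3)) (hχ : FT χ) : FT (rsM M χ) := by
  obtain ⟨E, hE1, hE2⟩ := hχ
  have hle : M ≤ M ⊔ E := le_sup_left
  have hfs : FiniteDimensional K (M ⊔ E : IntermediateField K QBar) :=
    IntermediateField.finiteDimensional_sup M E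
  refine ⟨IntermediateField.extendScalars hle, ?_, ?_⟩
  · have h1 : FiniteDimensional K (IntermediateField.extendScalars hle) := hfs
    exact FiniteDimensional.right K M _
  · intro τ hτ
    rw [IntermediateField.mem_fixingSubgroup_iff] at hτ
    have h1 : τ.restrictScalars K ∈ E.fixingSubgroup := by
      rw [IntermediateField.mem_fixingSubgroup_iff]
      intro x hx
      refine hτ x ?_
      rw [IntermediateField.mem_extendScalars]
      exact (le_sup_right : E ≤ M ⊔ E) hx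
    exact hE2 h1

private theorem cube3 (x : Multiplicative (ZMod 3)) : x = (x * x) * (x * x) := by
  have h : ∀ a : ZMod 3, a = (a + a) + (a + a) := by decide
  exact congrArg Multiplicative.ofAdd (h (Multiplicative.toAdd x))

private theorem ty_pl (M : IntermediateField K QBar) [NumberField M] (Q : DP K QBar) (v : Pl K) :
    ∃ w : Pl M, (Q.P v).under (𝓞 M) = w.asIdeal := by
  have hover : ((Q.P v).under (𝓞 M)).comap (algebraMap (𝓞 K) (𝓞 M)) = v.asIdeal := by
    rw [← Q.under v]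
    exact Ideal.ext fun a => Iff.rfl
  have hne : (Q.P v).under (𝓞 M) ≠ ⊥ := by
    intro h
    apply v.ne_bot
    rw [← hover, h, ← RingHom.ker_eq_comap_bot]
    exact (RingHom.injective_iff_ker_eq_bot _).mp
      (NumberField.RingOfIntegers.algebraMap.injective K M)
  have hp := Q.prime v
  exact ⟨⟨(Q.P v).under (𝓞 M), Ideal.IsPrime.comap _, hne⟩, rfl⟩

/-- a choice of primes of `QBar` over the primes of `M` which extends `Q` -/
private theorem ty_dp (M : IntermediateField K QBar) [NumberField M] (Q : DP K QBar) :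
    ∃ Q' : DP M QBar, ∀ v : Pl K, ∀ w : Pl M, (Q.P v).under (𝓞 M) = w.asIdeal → Q'.P w = Q.P v := by
  have := alg_cl M
  obtain ⟨Q0⟩ := exists_DP M QBar
  have huniq : ∀ v v' : Pl K, (Q.P v).under (𝓞 M) = (Q.P v').under (𝓞 M) → v = v' := by
    intro v v' h
    apply HeightOneSpectrum.ext
    rw [← Q.under v, ← Q.under v']
    have h1 : ∀ u : Pl K, (Q.P u).under (𝓞 K) = ((Q.P u).under (𝓞 M)).comap (algebraMap (𝓞 K) (𝓞 M)) :=
      fun u => Ideal.ext fun a => Iff.rfl
    rw [h1, h1, h]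
  let P' : Pl M → Ideal (𝓞 QBar) := fun w =>
    if h : ∃ v : Pl K, (Q.P v).under (𝓞 M) = w.asIdeal then Q.P h.choose else Q0.P w
  have hP' : ∀ v : Pl K, ∀ w : Pl M, (Q.P v).under (𝓞 M) = w.asIdeal → P' w = Q.P v := by
    intro v w hvw
    have h : ∃ v : Pl K, (Q.P v).under (𝓞 M) = w.asIdeal := ⟨v, hvw⟩
    have h1 : P' w = Q.P h.choose := dif_pos h
    rw [h1]
    have h2 := huniq _ v (h.choose_spec.trans hvw.symm)
    rw [h2]
  have hP0 : ∀ w : Pl M, (¬ ∃ v : Pl K, (Q.P v).under (𝓞 M) = w.asIdeal) → P' w = Q0.P w :=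
    fun w h => dif_neg h
  refine ⟨⟨P', fun w => ?_, fun w => ?_⟩, hP'⟩
  · by_cases h : ∃ v : Pl K, (Q.P v).under (𝓞 M) = w.asIdeal
    · obtain ⟨v, hv⟩ := h
      rw [hP' v w hv]
      exact Q.prime v
    · rw [hP0 w h]
      exact Q0.prime w
  · by_cases h : ∃ v : Pl K, (Q.P v).under (𝓞 M) = w.asIdeal
    · obtain ⟨v, hv⟩ := h
      rw [hP' v w hv]
      exact hv
    · rw [hP0 w h]
      exact Q0.under w

theorem ty_fin (Q : DP K QBar) (S : Finset (Pl K)) :
    ∃ Xf : Finset (Gal(QBar/K) →* Multiplicative (ZMod 3)), (∀ χ ∈ Xf, χ ∈ Ch K) ∧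
      ∀ χ ∈ Ch K, ∃ χ' ∈ Xf, Teq S Q χ χ' := by
  by_cases hK : ∃ ω : K, IsPrimitiveRoot ω 3
  · obtain ⟨ω, hω⟩ := hK
    exact H48.T3.ty_fin hω Q S
  push Not at hK
  obtain ⟨M, hnf, τ, ω, H⟩ := H38.WM.exM K hK
  have hfd : FiniteDimensional K M := FiniteDimensional.right ℚ K M
  have hac := alg_cl M
  have hω := H.prim
  obtain ⟨Q', hQ'⟩ := ty_dp M Q
  choose w hw using ty_pl M Q
  have h1 : MOne 3 M := mone_odd Nat.prime_three (by norm_num) M
  obtain ⟨D, hD⟩ := H38.BB.exists_RD_of M Nat.prime_three h1 hω (S.image w)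
  obtain ⟨L, -⟩ := H38.AS.lds_of (Ω := QBar) Nat.prime_three hω D.toRD0 Q'
  obtain ⟨R, -, hR⟩ := hw_types (W := Multiplicative (ZMod 3)) Nat.prime_three h1 hω D.toRD0 L Q' (by
    intro w
    apply Multiplicative.toAdd.injective
    rw [toAdd_pow, toAdd_one, nsmul_eq_mul]
    rw [show ((3 : ℕ) : ZMod 3) = 0 from rfl, zero_mul])
  -- two characters with the same restriction have the same type
  have key : ∀ χ χ' : Gal(QBar/K) →* Multiplicative (ZMod 3), ∀ r, Teq D.S0 Q' (rsM M χ) r →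
      Teq D.S0 Q' (rsM M χ') r → Teq S Q χ χ' := by
    intro χ χ' r hr hr' v hv σ hσ
    obtain ⟨σ', hσ'⟩ := H38.WM.om_sq τ ω H σ
    have hdec : σ' ∈ dec (K := M) (Q'.P (w v)) := by
      rw [hQ' v (w v) (hw v)]
      intro x
      have h2 : σ' • x = (σ * σ) • x := by
        rw [← hσ']
        rfl
      rw [h2, mul_smul]
      have h3 := hσ (σ • x)
      have h4 := hσ x
      exact h3.trans h4
    have hwS : w v ∈ D.S0 := hD (w v) (Finset.mem_image_of_mem w hv)
    have h3 : rsM M χ σ' = rsM M χ' σ' := by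
      rw [hr (w v) hwS σ' hdec, hr' (w v) hwS σ' hdec]
    have h4 : ∀ ψ : Gal(QBar/K) →* Multiplicative (ZMod 3), rsM M ψ σ' = ψ σ * ψ σ := by
      intro ψ
      have h5 : rsM M ψ σ' = ψ (σ'.restrictScalars K) := rfl
      rw [h5, hσ', map_mul]
    rw [h4, h4] at h3
    rw [cube3 (χ σ), cube3 (χ' σ), h3]
  have h2 : ∀ r : Gal(QBar/M) →* Multiplicative (ZMod 3), ∃ χ' : Gal(QBar/K) →* Multiplicative (ZMod 3),
      (∃ χ ∈ Ch K, Teq D.S0 Q' (rsM M χ) r) → χ' ∈ Ch K ∧ Teq D.S0 Q' (rsM M χ') r := by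
    intro r
    by_cases h : ∃ χ ∈ Ch K, Teq D.S0 Q' (rsM M χ) r
    · obtain ⟨χ, h3, h4⟩ := h
      exact ⟨χ, fun _ => ⟨h3, h4⟩⟩
    · exact ⟨1, fun h' => absurd h' h⟩
  choose g hg using h2
  refine ⟨(R.filter fun r => ∃ χ ∈ Ch K, Teq D.S0 Q' (rsM M χ) r).image g, ?_, ?_⟩
  · intro χ hχ
    obtain ⟨r, hr, rfl⟩ := Finset.mem_image.1 hχ
    exact (hg r (Finset.mem_filter.1 hr).2).1
  · intro χ hχ
    obtain ⟨r, hr, hT⟩ := hR (rsM M χ) (rsM_ft M χ hχ.1)
    exact ⟨g r, Finset.mem_image_of_mem g (Finset.mem_filter.2 ⟨hr, χ, hχ, hT⟩),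
      key χ (g r) r hT (hg r ⟨χ, hχ, hT⟩).2⟩

end H48.AQ
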